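import Pool.Agent.Y174.SD.G13

/-! Project SD: the main theorem for varieties of any Kodaira dimension. -/

set_option autoImplicit false
set_option linter.overlappingInstances false
set_option linter.unusedSectionVars false
set_option maxHeartbeats 400000

open FF IntermediateField Pool.Agent.W619.PQ Pool.Agent.W619.TW Pool.Agent.W619.Y

namespace Pool.Agent.Y174.SD

section

variable {k K : Type} [Field k] [Field K] [Algebra k K]

theorem kod_zero {n a : ℕ} : PairKod k K n (fun _ => 0) a ↔ KodTr k K n a := by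
  unfold PairKod KodTr
  simp only [sec_zero]

theorem num_zero {n a : ℕ} : PairNum k K n (fun _ => 0) a ↔ NumLe k K n (fun _ => False) a := by
  have h : ∀ (S : Finset K) (m : ℕ), PairSec k K n (fun _ => 0) S m 1 =
      IsSec k K n (fun _ => False) S m 1 := by
    intro S m
    funext ω
    exact propext sec_zero
  unfold PairNum NumLe
  simp only [h]

theorem isPull_zero {L : Type} [Field L] [Algebra k L] [Algebra K L] :
    IsPull (fun _ : Place k K => 0) (fun _ : Place k L => 0) := by
  intro v w e h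
  have h1 : (1 : ℝ) ≤ e := by exact_mod_cast h.1
  rw [sub_zero, mul_one, max_eq_left (by linarith)]

/-- **Main theorem** in the case `κ ≤ 0`, without boundary. -/
theorem main2' [CharZero k] [IsAlgClosed k] {n m : ℕ} (hess : Algebra.EssFiniteType k K)
    (hn : Algebra.trdeg k K = n) (hm : 1 ≤ m) (hκ : ¬ KodTr k K n 1) (h : NoZero k K n m) :
    ∃ M : IntermediateField K (AlgebraicClosure K), FiniteDimensional K M ∧ IsGalois K M ∧
      MaxAlb k M n ∧ KodTr k K n 0 ∧ (∀ a, KodTr k K n a ↔ KodTr k M n a) ∧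
      ∀ a, NumLe k M n (fun _ => False) a → NumLe k K n (fun _ => False) a := by
  obtain ⟨M, h1, h2, ⟨η, hη, hreg⟩, h4, h5⟩ := main1 (k := k) (K := K) hess hn hm
    (Bd := fun _ => False) (δ := fun _ => 0) (fun _ => le_rfl) (fun _ h => h.elim)
    (fun h0 => hκ (kod_zero.1 h0)) (noZeroLog_false.2 h)
  obtain ⟨h6, h7⟩ := h5 (fun _ => 0) isPull_zero
  refine ⟨M, h1, h2, ⟨η, hη, fun i w hw D hD => hreg i w hw D ⟨fun _ => hD, ?_⟩⟩,
    kod_zero.1 h4, fun a => ?_, fun a ha => num_zero.1 (h7 a (num_zero.2 ha))⟩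
  · rintro ⟨v, e, -, h0⟩
    exact h0.elim
  · rw [← kod_zero, h6 a, kod_zero]

end

section

variable {k L K Λ F : Type} [Field k] [CharZero k] [Field L] [Field K] [Field Λ]
  [Field F] [Algebra k L] [Algebra k K] [Algebra L K] [IsScalarTower k L K] [Algebra L Λ]
  [Algebra Λ F] [Algebra K F] [Algebra L F] [IsScalarTower L Λ F] [IsScalarTower L K F]
  [Algebra k Λ] [Algebra k F] [IsScalarTower k Λ F] [IsScalarTower k K F]
  [IsScalarTower k L Λ]

theorem noZero_fib (hess : Algebra.EssFiniteType k K) [Algebra.IsAlgebraic L Λ] {d r m : ℕ}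
    (hm : 1 ≤ m)
    (hL : Algebra.trdeg k L = d) (hn : Algebra.trdeg k K = (d + (r + 1) : ℕ))
    (hgenF : IntermediateField.adjoin Λ (Set.range (algebraMap K F)) = ⊤)
    (h : NoZero k K (d + (r + 1)) m) : NoZero Λ F (r + 1) m := by
  have hL0 : CharZero L := charZero_of_injective_algebraMap (algebraMap k L).injective
  have hΛ0 : CharZero Λ := charZero_of_injective_algebraMap (algebraMap k Λ).injective
  have h1 := noZeroLog_fib hess hm hL hn hgenF (noZeroLog_false.2 h)
  rw [bdFib_false] at h1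
  exact noZeroLog_false.1 h1

/-- **Main theorem**. -/
theorem main_sd [IsAlgClosed Λ] (hessL : Algebra.EssFiniteType k L)
    (hess : Algebra.EssFiniteType k K) [Algebra.IsAlgebraic L Λ] {d r m : ℕ}
    (hL : Algebra.trdeg k L = d) (hn : Algebra.trdeg k K = (d + (r + 1) : ℕ))
    (hcl : ∀ x : K, IsAlgebraic L x → x ∈ Set.range (algebraMap L K))
    (hgenF : IntermediateField.adjoin Λ (Set.range (algebraMap K F)) = ⊤)
    (hm : 1 ≤ m) (hκ : ¬ KodTr Λ F (r + 1) 1) (h : NoZero Λ F (r + 1) m) :
    ∃ M : IntermediateField F (AlgebraicClosure F), FiniteDimensional F M ∧ IsGalois F M ∧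
      MaxAlb Λ M (r + 1) ∧ KodTr Λ F (r + 1) 0 ∧
      (∀ a, KodTr Λ F (r + 1) a ↔ KodTr Λ M (r + 1) a) ∧
      ∀ h, NumLe Λ M (r + 1) (fun _ => False) h →
        NumLe Λ F (r + 1) (fun _ => False) h ∧
        NumLe k K (d + (r + 1)) (fun _ => False) (d + h) := by
  have hL0 : CharZero L := charZero_of_injective_algebraMap (algebraMap k L).injective
  have hΛ0 : CharZero Λ := charZero_of_injective_algebraMap (algebraMap k Λ).injective
  have hessF := ess_F (F := F) hess hgenF
  have htr := trdeg_F (trdeg_LK (L := L) hL hn) hgenF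
  obtain ⟨M, h1, h2, h3, h4, h5, h6⟩ := main2' hessF htr hm hκ h
  exact ⟨M, h1, h2, h3, h4, h5, fun h hh => ⟨h6 h hh, easy_add hessL hess hgenF
    (fun x hx => hcl x hx.isAlgebraic) hL hn (h6 h hh)⟩⟩

end

end Pool.Agent.Y174.SD
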