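import Pool.Agent.Y174.UDefs

/-! Symmetric differentials without common zeros over the generic point: definitions. -/

set_option autoImplicit false
set_option linter.overlappingInstances false
set_option linter.unusedSectionVars false

universe u v

open FF Pool.Agent.W619.PQ Pool.Agent.W619.TW

namespace Pool.Agent.Y174

section

variable (k : Type v) (K : Type u) [Field k] [Field K] [Algebra k K]

/-- The logarithmic symmetric differentials of degree `m` on the variety of dimension `n` with
function field `K` have no common zeros at the (geometric) generic point: let `E 0, ..., E (n - 1)` be
linearly independent rational vector fields, and `c i`, not all zero, in the algebraic closure of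
`K`; then there is a logarithmic symmetric differential `s` of degree `m` with `s (∑ i, c i • E i) ≠ 0`,
where `s (∑ i, a i • E i)` is the polynomial `p` in the `a i`. -/
def NoZeroLog (n m : ℕ) (Bd : Place k K → Prop) : Prop :=
  ∀ E : Fin n → Derivation k K K, LinearIndependent K E →
    ∀ c : Fin n → AlgebraicClosure K, c ≠ 0 →
      ∃ (s : Derivation k K K → K) (p : MvPolynomial (Fin n) K), IsSymDiff m s ∧ SymLog n Bd s ∧
        (∀ a : Fin n → K, s (∑ i, a i • E i) = MvPolynomial.eval a p) ∧
        MvPolynomial.aeval c p ≠ 0

/-- The regular symmetric differentials of degree `m` on the variety of dimension `n` with function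
field `K` have no common zeros at the (geometric) generic point: let `E 0, ..., E (n - 1)` be
linearly independent rational vector fields, and `c i`, not all zero, in the algebraic closure of
`K`; then there is a regular symmetric differential `s` of degree `m` with `s (∑ i, c i • E i) ≠ 0`,
where `s (∑ i, a i • E i)` is the polynomial `p` in the `a i`. -/
def NoZero (n m : ℕ) : Prop :=
  ∀ E : Fin n → Derivation k K K, LinearIndependent K E →
    ∀ c : Fin n → AlgebraicClosure K, c ≠ 0 →
      ∃ (s : Derivation k K K → K) (p : MvPolynomial (Fin n) K), IsSymDiff m s ∧ SymReg n s ∧
        (∀ a : Fin n → K, s (∑ i, a i • E i) = MvPolynomial.eval a p) ∧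
        MvPolynomial.aeval c p ≠ 0

end

end Pool.Agent.Y174
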