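import Pool.Agent.Y174.SD.Stm

/-! Project SD: linear substitutions, the action on the coefficients, the Jacobian determinant. -/

set_option autoImplicit false
set_option linter.unusedSectionVars false

open MvPolynomial Pool.Agent.Y174.T

namespace Pool.Agent.Y174.SD

section

variable {R : Type*} [CommRing R] {n m : ℕ}

theorem lsub_comp (A B : Matrix (Fin n) (Fin n) R) (p : MvPolynomial (Fin n) R) :
    lsub (A * B) p = lsub A (lsub B p) := by
  induction p using MvPolynomial.induction_on with
  | C a => simp [lsub]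
  | add p q hp hq => rw [map_add, map_add, map_add, hp, hq]
  | mul_X p i hp =>
    rw [map_mul, map_mul, map_mul, hp]
    congr 1
    simp only [lsub, aeval_X, map_sum, map_mul, Matrix.mul_apply, Finset.sum_mul, aeval_C,
      algebraMap_eq, Finset.mul_sum]
    rw [Finset.sum_comm]
    refine Finset.sum_congr rfl fun j _ => Finset.sum_congr rfl fun l _ => ?_
    ring

theorem lsub_one (p : MvPolynomial (Fin n) R) : lsub (1 : Matrix (Fin n) (Fin n) R) p = p := by
  induction p using MvPolynomial.induction_on with
  | C a => simp [lsub]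
  | add p q hp hq => rw [map_add, hp, hq]
  | mul_X p i hp =>
    rw [map_mul, hp]
    congr 1
    simp [lsub, Matrix.one_apply]

theorem lsub_X (A : Matrix (Fin n) (Fin n) R) (c : Fin n) :
    lsub A (X c) = ∑ i, C (A i c) * X i := by
  unfold lsub
  rw [aeval_X]

theorem lsub_C (A : Matrix (Fin n) (Fin n) R) (c : R) : lsub A (C c) = C c := by
  unfold lsub
  rw [aeval_C, algebraMap_eq]

theorem lsub_hom (A : Matrix (Fin n) (Fin n) R) {p : MvPolynomial (Fin n) R}
    (hp : p.IsHomogeneous m) : (lsub A p).IsHomogeneous m := by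
  have h1 := hp.aeval (fun c => ∑ i, C (A i c) * X i : Fin n → MvPolynomial (Fin n) R) (n := 1)
    (fun c => by
      refine IsHomogeneous.sum _ _ _ fun i _ => ?_
      simpa using (isHomogeneous_C (Fin n) (A i c)).mul (isHomogeneous_X R i))
  rw [one_mul] at h1
  exact h1

theorem lsub_map {S : Type*} [CommRing S] (f : R →+* S) (A : Matrix (Fin n) (Fin n) R)
    (p : MvPolynomial (Fin n) R) : map f (lsub A p) = lsub (A.map f) (map f p) := by
  induction p using MvPolynomial.induction_on with
  | C a => rw [lsub_C, map_C, lsub_C]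
  | add p q hp hq => rw [map_add, map_add, map_add, map_add, hp, hq]
  | mul_X p i hp =>
    rw [map_mul, map_mul, map_mul, map_mul, hp, lsub_X, map_X, lsub_X, map_sum]
    congr 1
    refine Finset.sum_congr rfl fun j _ => ?_
    rw [map_mul, map_C, map_X]
    rfl

theorem pderiv_lsub (A : Matrix (Fin n) (Fin n) R) (j : Fin n) (p : MvPolynomial (Fin n) R) :
    pderiv j (lsub A p) = ∑ c, C (A j c) * lsub A (pderiv c p) := by
  induction p using MvPolynomial.induction_on with
  | C a => simp [lsub_C]
  | add p q hp hq =>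
    rw [map_add, map_add, hp, hq, ← Finset.sum_add_distrib]
    refine Finset.sum_congr rfl fun c _ => ?_
    rw [map_add, map_add, mul_add]
  | mul_X p i hp =>
    have h1 : pderiv j (lsub A (X i)) = C (A j i) := by
      rw [lsub_X, map_sum, Finset.sum_eq_single j]
      · rw [pderiv_mul, pderiv_C, zero_mul, zero_add, pderiv_X_self, mul_one]
      · intro b _ hb
        rw [pderiv_mul, pderiv_C, zero_mul, zero_add, pderiv_X_of_ne hb, mul_zero]
      · intro h
        exact absurd (Finset.mem_univ j) h
    rw [map_mul, pderiv_mul, hp, h1]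
    have h2 : ∀ c, C (A j c) * lsub A (pderiv c (p * X i)) =
        C (A j c) * lsub A (pderiv c p) * lsub A (X i) +
          (if c = i then lsub A p * C (A j i) else 0) := by
      intro c
      rw [pderiv_mul, map_add, map_mul, map_mul]
      by_cases h : c = i
      · subst h
        rw [pderiv_X_self, map_one, if_pos rfl]
        ring
      · rw [pderiv_X_of_ne (Ne.symm h), map_zero, if_neg h]
        ring
    rw [Finset.sum_congr rfl fun c _ => h2 c, Finset.sum_add_distrib,
      Finset.sum_ite_eq' Finset.univ i, if_pos (Finset.mem_univ i), Finset.sum_mul]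

/-- The Jacobian determinant. -/
noncomputable def jac (a : Fin n → MvPolynomial (Fin n) R) : MvPolynomial (Fin n) R :=
  (Matrix.of fun i j => pderiv j (a i)).det

theorem jac_lsub (A : Matrix (Fin n) (Fin n) R) (a : Fin n → MvPolynomial (Fin n) R) :
    jac (fun i => lsub A (a i)) = C A.det * lsub A (jac a) := by
  unfold jac
  have h1 : (Matrix.of fun i j => pderiv j (lsub A (a i))) =
      (Matrix.of fun i j => pderiv j (a i)).map (lsub A) * (A.map C).transpose := by
    ext1 i j
    rw [Matrix.of_apply, pderiv_lsub, Matrix.mul_apply]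
    refine Finset.sum_congr rfl fun c _ => ?_
    rw [Matrix.map_apply, Matrix.of_apply, Matrix.transpose_apply, Matrix.map_apply, mul_comm]
  rw [h1, Matrix.det_mul, Matrix.det_transpose, mul_comm]
  congr 1
  · have := RingHom.map_det (C : R →+* MvPolynomial (Fin n) R) A
    rw [this]
    rfl
  · have := AlgHom.map_det (lsub A) (Matrix.of fun i j => pderiv j (a i))
    rw [this]
    rfl

theorem pderiv_map' {S : Type*} [CommRing S] (f : R →+* S) (j : Fin n)
    (p : MvPolynomial (Fin n) R) : pderiv j (map f p) = map f (pderiv j p) := by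
  exact pderiv_map

theorem jac_map {S : Type*} [CommRing S] (f : R →+* S) (a : Fin n → MvPolynomial (Fin n) R) :
    jac (fun i => map f (a i)) = map f (jac a) := by
  unfold jac
  rw [RingHom.map_det]
  congr 1
  ext1 i j
  rw [Matrix.of_apply, RingHom.mapMatrix_apply, Matrix.map_apply, Matrix.of_apply, pderiv_map']

theorem fm_hom (c : Fin n × Ex n m → R) (j : Fin n) : (fm c j).IsHomogeneous m := by
  unfold fm
  refine IsHomogeneous.sum _ _ _ fun d _ => ?_
  exact isHomogeneous_monomial _ d.2

theorem coeff_fm (c : Fin n × Ex n m → R) (j : Fin n) (d : Ex n m) :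
    coeff d.1 (fm c j) = c (j, d) := by
  classical
  unfold fm
  rw [coeff_sum, Finset.sum_eq_single d]
  · rw [coeff_monomial, if_pos rfl]
  · intro b _ hb
    rw [coeff_monomial, if_neg fun h => hb (Subtype.ext h)]
  · intro h
    exact absurd (Finset.mem_univ d) h

theorem hom_ext {p q : MvPolynomial (Fin n) R} (hp : p.IsHomogeneous m) (hq : q.IsHomogeneous m)
    (h : ∀ d : Ex n m, coeff d.1 p = coeff d.1 q) : p = q := by
  ext d
  by_cases hd : d.degree = m
  · exact h ⟨d, hd⟩
  · rw [hp.coeff_eq_zero hd, hq.coeff_eq_zero hd]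

theorem fm_coeff {a : Fin n → MvPolynomial (Fin n) R} (ha : ∀ j, (a j).IsHomogeneous m)
    (j : Fin n) : fm (fun p : Fin n × Ex n m => coeff p.2.1 (a p.1)) j = a j :=
  hom_ext (fm_hom _ _) (ha j) fun d => coeff_fm _ _ _

theorem map_fm {S : Type*} [CommRing S] (f : R →+* S) (c : Fin n × Ex n m → R) (j : Fin n) :
    map f (fm c j) = fm (fun p => f (c p)) j := by
  unfold fm
  rw [map_sum]
  refine Finset.sum_congr rfl fun d _ => ?_
  rw [map_monomial]

theorem jac_hom {a : Fin n → MvPolynomial (Fin n) R} (ha : ∀ j, (a j).IsHomogeneous m) :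
    (jac a).IsHomogeneous (n * (m - 1)) := by
  unfold jac
  rw [Matrix.det_apply]
  refine IsHomogeneous.sum _ _ _ fun σ _ => ?_
  have h1 : (∏ i, (Matrix.of fun i j => pderiv j (a i)) (σ i) i).IsHomogeneous
      (∑ _i : Fin n, (m - 1)) := by
    refine IsHomogeneous.prod _ _ _ fun i _ => ?_
    rw [Matrix.of_apply]
    exact (ha _).pderiv
  rw [Finset.sum_const, Finset.card_univ, Fintype.card_fin, smul_eq_mul] at h1
  rcases Int.units_eq_one_or (Equiv.Perm.sign σ) with h | h
  · rw [h, one_smul]
    exact h1
  · rw [h, Units.neg_smul, one_smul]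
    exact h1.neg

end

section

variable {k : Type*} [Field k] {n m : ℕ}

theorem map_gen (g : Matrix (Fin n) (Fin n) k) (j : Fin n) :
    map (act g : Cf k n m →ₐ[k] Cf k n m).toRingHom (gen k n m j) =
      lsub (g.map C) (gen k n m j) := by
  unfold gen
  refine hom_ext (m := m) ((fm_hom _ _).map _) (lsub_hom _ (fm_hom _ _)) fun d => ?_
  rw [coeff_map, coeff_fm]
  change act g (X (j, d)) = _
  unfold act
  rw [aeval_X]
  rfl

theorem gen_hom (j : Fin n) : (gen k n m j).IsHomogeneous m := fm_hom _ _

/-- The automorphism of the polynomial ring over the ring of coefficients given by `g`. -/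
noncomputable def tau (g : Matrix (Fin n) (Fin n) k) :
    MvPolynomial (Fin n) (Cf k n m) →+* MvPolynomial (Fin n) (Cf k n m) :=
  (lsub (g⁻¹.map C)).toRingHom.comp (map (act g : Cf k n m →ₐ[k] Cf k n m).toRingHom)

theorem tau_apply (g : Matrix (Fin n) (Fin n) k) (p : MvPolynomial (Fin n) (Cf k n m)) :
    tau g p = lsub (g⁻¹.map C) (map (act g : Cf k n m →ₐ[k] Cf k n m).toRingHom p) := rfl

theorem inv_map (g : Matrix (Fin n) (Fin n) k) (hg : g.det ≠ 0) :
    (g⁻¹.map C : Matrix (Fin n) (Fin n) (Cf k n m)) * g.map C = 1 := by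
  have h1 := Matrix.nonsing_inv_mul g (isUnit_iff_ne_zero.2 hg)
  have h2 := congrArg (fun M : Matrix (Fin n) (Fin n) k =>
    (C : k →+* Cf k n m).mapMatrix M) h1
  simp only [map_mul, map_one] at h2
  exact h2

theorem tau_gen (g : Matrix (Fin n) (Fin n) k) (hg : g.det ≠ 0) (j : Fin n) :
    tau g (gen k n m j) = gen k n m j := by
  rw [tau_apply, map_gen, ← lsub_comp, inv_map g hg, lsub_one]

theorem tau_C (g : Matrix (Fin n) (Fin n) k) (q : Cf k n m) :
    tau g (C q) = C (act g q) := by
  rw [tau_apply, map_C, lsub_C]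
  rfl

theorem tau_jac (g : Matrix (Fin n) (Fin n) k) (hg : g.det ≠ 0) :
    tau g (jac (gen k n m)) = C (C g.det) * jac (gen k n m) := by
  rw [tau_apply, ← jac_map]
  have h1 : (fun i => map (act g : Cf k n m →ₐ[k] Cf k n m).toRingHom (gen k n m i)) =
      fun i => lsub (g.map C) (gen k n m i) := by
    funext i
    exact map_gen g i
  rw [h1, jac_lsub, map_mul, lsub_C, ← lsub_comp, inv_map g hg, lsub_one]
  congr 2
  have := RingHom.map_det (C : k →+* Cf k n m) g
  rw [this]
  rfl

theorem tau_aeval (g : Matrix (Fin n) (Fin n) k) (hg : g.det ≠ 0)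
    (p : MvPolynomial (Fin n) (Cf k n m)) :
    tau g (aeval (gen k n m) p) =
      aeval (gen k n m) (map (act g : Cf k n m →ₐ[k] Cf k n m).toRingHom p) := by
  induction p using MvPolynomial.induction_on with
  | C a =>
    rw [map_C, aeval_C, aeval_C, algebraMap_eq, tau_C]
    rfl
  | add p q hp hq => rw [map_add, map_add, map_add, map_add, hp, hq]
  | mul_X p i hp =>
    rw [map_mul, map_mul, map_mul, map_mul, hp, map_X, aeval_X, tau_gen g hg]

end

end Pool.Agent.Y174.SD
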