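import Pool.Agent.Y174.SD.G9
import Pool.Agent.Y174.U3
import Pool.Agent.Y174.V3

/-! Project SD: semi-invariants of logarithmic symmetric differentials are sections of multiples of
the log canonical divisor. -/

set_option autoImplicit false
set_option linter.overlappingInstances false
set_option linter.unusedSectionVars false
set_option maxHeartbeats 400000

open FF MvPolynomial Pool.Agent.W619.PQ Pool.Agent.W619.PL Pool.Agent.W619.TW
  Pool.Agent.W603.LV Pool.Agent.W619.Y Pool.Agent.Y174.T

namespace Pool.Agent.Y174.SD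

section

variable {k K : Type} [Field k] [CharZero k] [Field K] [Algebra k K] {n m : ℕ}

theorem reg_aeval {v : Place k K} {σ : Type*} (x : σ → K) (hx : ∀ p, v.Reg (x p))
    (Q : MvPolynomial σ k) : Ge v 0 (aeval x Q) := by
  induction Q using MvPolynomial.induction_on with
  | C c =>
    rw [aeval_C]
    exact reg_const c
  | add p q hp hq =>
    rw [map_add]
    exact hp.add hq
  | mul_X p i hp =>
    rw [map_mul, aeval_X]
    exact reg_mul hp (hx i)

/-- The value of a semi-invariant on a logarithmic frame. -/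
theorem semi_val (hDENS : S_DENS) {Bd : Place k K → Prop} (y : Fin n → K)
    (a : Fin n → MvPolynomial (Fin n) K) (ha : ∀ j, (a j).IsHomogeneous m) {v : Place k K}
    (hreg : ∀ j, ∀ D : Derivation k K K, LogFld Bd v D → v.Reg (sym y (a j) D))
    {Q : Cf k n m} {W : ℕ} (hQ : SemiInv Q W) (D : Fin n → Derivation k K K)
    (hD : ∀ i, LogFld Bd v (D i)) :
    Ge v 0 (aeval (cof m a) Q * (Matrix.of fun i c => D i (y c)).det ^ W) := by
  classical
  have h1 := hDENS k K n m W Q hQ (Matrix.of fun i c => D i (y c)) (cof m a)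
  rw [mul_comm, ← h1]
  refine reg_aeval _ (fun p => ?_) Q
  obtain ⟨j, e⟩ := p
  have h2 : trans (Matrix.of fun i c => D i (y c)) (cof m a) (j, e) =
      coeff e.1 ((subm m (Matrix.of fun i c => D i (y c)) ⟨a j, ha j⟩ :
        homogeneousSubmodule (Fin n) K m) : MvPolynomial (Fin n) K) := by
    unfold trans
    have h3 : fm (cof m a) j = a j := fm_coeff ha j
    rw [h3, subm_coe]
    rfl
  rw [h2]
  refine coeff_reg _ (fun β => ?_) e
  rw [subm_coe, T.eval_sub]
  have h4 := hreg j (∑ i, algebraMap k K (β i) • D i)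
    (LogFld.sum _ _ _ (fun i _ => reg_const _) (fun i _ => hD i))
  unfold sym at h4
  have h5 : (fun c => (∑ i, algebraMap k K (β i) • D i) (y c)) =
      fun c => ∑ i, algebraMap k K (β i) * (Matrix.of fun i c => D i (y c)) i c := by
    funext c
    rw [Pool.Agent.W721.PG.EFF2.der_sum]
    rfl
  rw [h5] at h4
  exact h4

/-- The section given by a semi-invariant. -/
theorem semi_sec (hDENS : S_DENS) (hess : Algebra.EssFiniteType k K)
    (htr : Algebra.trdeg k K = n) {Bd : Place k K → Prop} {δ : Place k K → ℝ}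
    (hδ : ∀ v, 0 ≤ δ v) (hB : ∀ v, Bd v → δ v = 1) (y : Fin n → K)
    (a : Fin n → MvPolynomial (Fin n) K) (ha : ∀ j, (a j).IsHomogeneous m)
    (hreg : ∀ j, ∀ v : Place k K, IsDivisorial v n → ∀ D : Derivation k K K, LogFld Bd v D →
      v.Reg (sym y (a j) D))
    {Q : Cf k n m} {W : ℕ} (hQ : SemiInv Q W) :
    PairSec k K n δ {1} W 0
      (fun D => aeval (cof m a) Q * (Matrix.of fun i c => D i (y c)).det ^ W) := by
  classical
  have hpl : IsPluriForm k K n W
      (fun D => aeval (cof m a) Q * (Matrix.of fun i c => D i (y c)).det ^ W) := by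
    intro X D
    change aeval (cof m a) Q * (Matrix.of fun i c => (∑ j, X i j • D j) (y c)).det ^ W =
      X.det ^ W * (aeval (cof m a) Q * (Matrix.of fun i c => D i (y c)).det ^ W)
    have e : (Matrix.of fun i c => (∑ j, X i j • D j) (y c)) =
        X * Matrix.of fun i c => D i (y c) := by
      ext i c
      rw [Matrix.of_apply, Matrix.mul_apply, Pool.Agent.W721.PG.EFF2.der_sum]
      rfl
    rw [e, Matrix.det_mul, mul_pow]
    ring
  refine ⟨hpl, fun v hv D hD => ?_⟩
  have h1 := log_to_pres (c := 0) htr hess Bd hv _ hpl (fun D hD => by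
    have h2 := semi_val hDENS y a ha (fun j D hD => hreg j v hv D hD) hQ D hD
    simpa using Ge.toR h2) D hD
  by_cases hBv : Bd v
  · rcases h1.1 hBv with h2 | h2
    · exact Or.inl h2
    · right
      refine ⟨1, by simp, one_ne_zero, ?_⟩
      rw [hB v hBv]
      simpa using h2
  · rcases h1.2 hBv with h2 | h2
    · exact Or.inl h2
    · right
      refine ⟨1, by simp, one_ne_zero, ?_⟩
      have h3 := mul_nonneg (Nat.cast_nonneg (α := ℝ) W) (hδ v)
      simp only [Nat.cast_zero, zero_mul, zero_sub]
      linarith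

/-- The ratios of semi-invariants are constants if `κ ≤ 0`. -/
theorem ratio_of_kappa (hDENS : S_DENS) [IsAlgClosed k] (hess : Algebra.EssFiniteType k K)
    (htr : Algebra.trdeg k K = n) (hm : 1 ≤ m) {Bd : Place k K → Prop} {δ : Place k K → ℝ}
    (hδ : ∀ v, 0 ≤ δ v) (hB : ∀ v, Bd v → δ v = 1) (hκ : ¬ PairKod k K n δ 1)
    (y : Fin n → K) (hy : IsTranscendenceBasis k y)
    (a : Fin n → MvPolynomial (Fin n) K) (ha : ∀ j, (a j).IsHomogeneous m)
    (hreg : ∀ j, ∀ v : Place k K, IsDivisorial v n → ∀ D : Derivation k K K, LogFld Bd v D →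
      v.Reg (sym y (a j) D)) : Ratio k m a := by
  classical
  intro W Q1 Q2 h1 h2 h20
  rcases Nat.eq_zero_or_pos W with hW | hW
  · subst hW
    obtain ⟨c1, rfl⟩ := semi_zero hm h1
    obtain ⟨c2, rfl⟩ := semi_zero hm h2
    rw [aeval_C] at h20 ⊢
    rw [aeval_C]
    refine ⟨c1 / c2, ?_⟩
    rw [map_div₀, div_mul_cancel₀ _ h20]
  obtain ⟨E, hE⟩ := Pool.Agent.W636.PG.exists_duals k K n y hy
  have hdetE : (Matrix.of fun i c => E i (y c)).det = 1 := by
    have h1 : (Matrix.of fun i c => E i (y c)) = 1 := by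
      ext a b
      rw [Matrix.of_apply, Matrix.one_apply]
      exact hE a b
    rw [h1, Matrix.det_one]
  by_contra hcon
  have hcon2 : ¬ ∃ c : k, algebraMap k K c = aeval (cof m a) Q1 / aeval (cof m a) Q2 := by
    rintro ⟨c, hc⟩
    exact hcon ⟨c, by rw [hc, div_mul_cancel₀ _ h20]⟩
  have htrx : Transcendental k (aeval (cof m a) Q1 / aeval (cof m a) Q2) := by
    intro halg
    apply hcon2
    have h1 : IsIntegral k (aeval (cof m a) Q1 / aeval (cof m a) Q2) := halg.isIntegral
    have h2 := IsAlgClosed.degree_eq_one_of_irreducible k (minpoly.irreducible h1)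
    exact minpoly.mem_range_of_degree_eq_one k _ h2
  have h10 : aeval (cof m a) Q1 ≠ 0 := by
    intro h0
    apply htrx
    rw [h0, zero_div]
    exact isAlgebraic_zero
  apply hκ
  refine ⟨W, hW, fun l D => (if l = 0 then aeval (cof m a) Q2 else aeval (cof m a) Q1) *
      (Matrix.of fun i c => D i (y c)).det ^ W, fun l => ?_, E, fun l => ?_, ?_⟩
  · by_cases hl : l = 0
    · simp only [hl, if_true]
      exact semi_sec hDENS hess htr hδ hB y a ha hreg h2
    · simp only [hl, if_false]
      exact semi_sec hDENS hess htr hδ hB y a ha hreg h1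
  · change (if l = 0 then aeval (cof m a) Q2 else aeval (cof m a) Q1) *
        (Matrix.of fun i c => E i (y c)).det ^ W ≠ 0
    rw [hdetE, one_pow, mul_one]
    split_ifs
    · exact h20
    · exact h10
  · have h3 : (fun l : Fin 1 => (if l.succ = 0 then aeval (cof m a) Q2 else aeval (cof m a) Q1) *
          (Matrix.of fun i c => E i (y c)).det ^ W / ((if (0 : Fin 2) = 0 then aeval (cof m a) Q2
            else aeval (cof m a) Q1) * (Matrix.of fun i c => E i (y c)).det ^ W)) =
            fun _ => aeval (cof m a) Q1 / aeval (cof m a) Q2 := by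
        funext l
        rw [hdetE, one_pow, mul_one, mul_one, if_pos rfl, if_neg (Fin.succ_ne_zero l)]
    change AlgebraicIndependent k (fun l : Fin 1 => (if l.succ = 0 then aeval (cof m a) Q2 else
        aeval (cof m a) Q1) * (Matrix.of fun i c => E i (y c)).det ^ W / ((if (0 : Fin 2) = 0 then
          aeval (cof m a) Q2 else aeval (cof m a) Q1) *
            (Matrix.of fun i c => E i (y c)).det ^ W))
    rw [h3]
    exact algebraicIndependent_unique_type_iff.2 htrx

end

end Pool.Agent.Y174.SD
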