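import Pool.Agent.Y174.SD.G10
import Pool.Agent.Y108.SD.Char
import Pool.Agent.Y212.SD.Int
import Pool.Agent.Y212.SD.GP
import Pool.Agent.Y638.SD.Cramer
import Pool.Agent.Y638.SD.Gcd
import Pool.Agent.Y888.SD.Min
import Pool.Agent.Y301.SD.DENS
import Pool.Agent.Y710.SD.Pole
import Pool.Agent.Y664.SD.Point

/-! Project SD: log canonical pairs with `κ ≤ 0` with `n` logarithmic symmetric differentials without
common zeros. -/

set_option autoImplicit false
set_option linter.overlappingInstances false
set_option linter.unusedSectionVars false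
set_option maxHeartbeats 400000

open FF MvPolynomial IntermediateField Pool.Agent.W619.PQ Pool.Agent.W619.PL Pool.Agent.W619.TW
  Pool.Agent.W603.LV Pool.Agent.W619.Y Pool.Agent.Y174.T

namespace Pool.Agent.Y174.SD

section

variable {k K : Type} [Field k] [CharZero k] [Field K] [Algebra k K] {n m : ℕ}

/-- the form with values in the algebraic closure given by a row of the inverse matrix -/
noncomputable def rform (y : Fin n → K) (h : Matrix (Fin n) (Fin n) (AlgebraicClosure K))
    (i : Fin n) : Derivation k K K →ₗ[K] AlgebraicClosure K where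
  toFun D := ∑ j, h⁻¹ i j * algebraMap K (AlgebraicClosure K) (D (y j))
  map_add' D D' := by
    rw [← Finset.sum_add_distrib]
    refine Finset.sum_congr rfl fun j _ => ?_
    rw [Derivation.add_apply, map_add, mul_add]
  map_smul' c D := by
    rw [RingHom.id_apply, Finset.smul_sum]
    refine Finset.sum_congr rfl fun j _ => ?_
    rw [Derivation.smul_apply, smul_eq_mul, map_mul, Algebra.smul_def]
    ring

theorem rform_apply (y : Fin n → K) (h : Matrix (Fin n) (Fin n) (AlgebraicClosure K))
    (i : Fin n) (D : Derivation k K K) : rform y h i D =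
      (h⁻¹).mulVec (fun b => algebraMap K (AlgebraicClosure K) (D (y b))) i := rfl

/-- **Main theorem** in the case `κ ≤ 0`. -/
theorem main0 [IsAlgClosed k] (hess : Algebra.EssFiniteType k K)
    (hn : Algebra.trdeg k K = n) (hm : 1 ≤ m) {Bd : Place k K → Prop}
    {δ : Place k K → ℝ} (hδ : ∀ v, 0 ≤ δ v) (hB : ∀ v, Bd v → δ v = 1)
    (hκ : ¬ PairKod k K n δ 1) (y : Fin n → K) (hy : IsTranscendenceBasis k y)
    (a : Fin n → MvPolynomial (Fin n) K) (ha : ∀ j, (a j).IsHomogeneous m)
    (hreg : ∀ j, ∀ v : Place k K, IsDivisorial v n → ∀ D : Derivation k K K, LogFld Bd v D →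
      v.Reg (sym y (a j) D)) {N : ℕ}
    (hN : ∀ β : Fin n →₀ ℕ, β.degree = N → monomial β 1 ∈ Ideal.span (Set.range a)) :
    ∃ L : IntermediateField K (AlgebraicClosure K), FiniteDimensional K L ∧ IsGalois K L ∧
      (∃ (η : Fin n → (Derivation k L L →ₗ[L] L)), LinearIndependent L η ∧
        ∀ i, ∀ w : Place k L, IsDivisorial w n → ∀ D : Derivation k L L,
          LogFld (BdOn Bd) w D → w.Reg (η i D)) ∧
      PairKod k K n δ 0 ∧ ∀ δ' : Place k L → ℝ, IsPull δ δ' →
        (∀ a, PairKod k K n δ a ↔ PairKod k L n δ' a) ∧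
        ∀ a, PairNum k L n δ' a → PairNum k K n δ a := by
  classical
  have hK0 : CharZero K := charZero_of_injective_algebraMap (algebraMap k K).injective
  obtain ⟨E, hE⟩ := Pool.Agent.W636.PG.exists_duals k K n y hy
  have hexp := fun D : Derivation k K K => Pool.Agent.W73.PG.PULL.expand y hy E hE D
  rcases Nat.eq_zero_or_pos n with hn0 | hn1
  · subst hn0
    obtain ⟨L, hfd, hgal, -, hA, hK, hKod⟩ := main_L0 (k := k) (K := K)
      (Ω := AlgebraicClosure K) hess hn Bd δ hδ hB (ι := Fin 0) (fun i => i.elim0)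
      (fun i => i.elim0) (fun D _ => by rw [← hexp D]; simp)
    exact ⟨L, hfd, hgal, hA, hK, hKod⟩
  have hr := ratio_of_kappa Pool.Agent.Y301.SD.t_DENS hess hn hm hδ hB hκ y hy a ha hreg
  obtain ⟨h, hh, hc⟩ := isotrivial Pool.Agent.Y212.SD.t_INT Pool.Agent.Y888.SD.t_MIN
    (Pool.Agent.Y638.SD.t_GCD Pool.Agent.Y108.SD.t_CHAR) Pool.Agent.Y638.SD.t_CRAMER
    Pool.Agent.Y710.SD.t_POLE (Pool.Agent.Y761.SD.t_CONST Pool.Agent.Y664.SD.t_POINT)
    hn1 hm y hy a ha hN hr
  choose c hc using hc
  choose p hp hp0 using exists_eq (L := AlgebraicClosure K) Pool.Agent.Y212.SD.t_INT hm ha hN hh hc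
  obtain ⟨L, hfd, hgal, -, hA, hK, hKod⟩ := main_L0 (k := k) (K := K)
      (Ω := AlgebraicClosure K) hess hn Bd δ hδ hB (ι := Fin n) (fun i => rform y h i)
      (fun i v hv D hD => by
        refine ⟨_, (hp i).map _, fun e => ?_, hp0 i fun b => D (y b)⟩
        rw [Polynomial.coeff_map]
        exact reg_aeval _ (fun j => hreg j v hv D hD) _) (fun D hD => by
        have h1 : (h⁻¹).mulVec (fun b => algebraMap K (AlgebraicClosure K) (D (y b))) = 0 := by
          funext i
          exact hD i
        have h2 : (fun b => algebraMap K (AlgebraicClosure K) (D (y b))) = 0 := by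
          have h3 := congrArg (h.mulVec) h1
          rw [Matrix.mulVec_mulVec, Matrix.mul_nonsing_inv _ (isUnit_iff_ne_zero.2 hh),
            Matrix.one_mulVec, Matrix.mulVec_zero] at h3
          exact h3
        rw [← hexp D]
        refine Finset.sum_eq_zero fun b _ => ?_
        have h3 : D (y b) = 0 :=
          (map_eq_zero_iff _ (algebraMap K (AlgebraicClosure K)).injective).1 (congrFun h2 b)
        rw [h3, zero_smul])
  exact ⟨L, hfd, hgal, hA, hK, hKod⟩

end

end Pool.Agent.Y174.SD
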