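import Pool.Agent.Y174.SD.G11
import Pool.Agent.Y174.SD.Defs

/-! Project SD: from the geometric condition to forms in coordinates and back. -/

set_option autoImplicit false
set_option linter.overlappingInstances false
set_option linter.unusedSectionVars false
set_option maxHeartbeats 400000

open FF MvPolynomial IntermediateField Pool.Agent.W619.PQ Pool.Agent.W619.PL Pool.Agent.W619.TW
  Pool.Agent.W603.LV Pool.Agent.W619.Y Pool.Agent.Y174.T

namespace Pool.Agent.Y174.SD

section

/-- Nullstellensatz for homogeneous polynomials -/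
theorem null {K L : Type} [Field K] [Field L] [Algebra K L] [IsAlgClosed L] {n : ℕ}
    (S : Set (MvPolynomial (Fin n) K))
    (h : ∀ c : Fin n → L, c ≠ 0 → ∃ p ∈ S, aeval c p ≠ 0) :
    ∃ (M : ℕ) (H : Fin M → MvPolynomial (Fin n) K) (N : ℕ), (∀ j, H j ∈ S) ∧
      ∀ β : Fin n →₀ ℕ, β.degree = N → monomial β 1 ∈ Ideal.span (Set.range H) := by
  classical
  have h1 : ∀ i, (X i : MvPolynomial (Fin n) K) ∈ (Ideal.span S).radical := by
    intro i
    rw [← vanishingIdeal_zeroLocus_eq_radical (K := L), mem_vanishingIdeal_iff]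
    intro x hx
    rw [zeroLocus_span] at hx
    have hx0 : x = 0 := by
      by_contra hne
      obtain ⟨p, hp, hp0⟩ := h x hne
      exact hp0 (hx p hp)
    rw [aeval_X, hx0]
    rfl
  choose e he using h1
  obtain ⟨t, htS, ht⟩ := (Submodule.fg_span_iff_fg_span_finset_subset S).1
    (IsNoetherian.noetherian (Ideal.span S))
  let eq := t.equivFin
  refine ⟨t.card, fun j => ((eq.symm j : t) : MvPolynomial (Fin n) K), ∑ i, e i + 1,
    fun j => htS (eq.symm j).2, fun β hβ => ?_⟩
  have hr : Set.range (fun j => ((eq.symm j : t) : MvPolynomial (Fin n) K)) = (t : Set _) := by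
    ext x
    constructor
    · rintro ⟨j, rfl⟩
      exact (eq.symm j).2
    · intro hx
      exact ⟨eq ⟨x, hx⟩, by simp⟩
  rw [hr]
  have hs : Ideal.span (t : Set (MvPolynomial (Fin n) K)) = Ideal.span S := ht.symm
  rw [hs]
  obtain ⟨i, hi⟩ : ∃ i, e i ≤ β i := by
    by_contra hcon
    push Not at hcon
    rw [Finsupp.degree_eq_sum] at hβ
    have : ∑ i, β i ≤ ∑ i, e i := Finset.sum_le_sum fun i _ => (hcon i).le
    omega
  have h2 : (monomial β 1 : MvPolynomial (Fin n) K) =
      monomial (β - Finsupp.single i (e i)) 1 * X i ^ e i := by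
    rw [X_pow_eq_monomial, monomial_mul, one_mul,
      tsub_add_cancel_of_le (Finsupp.single_le_iff.2 hi)]
  rw [h2]
  exact Ideal.mul_mem_left _ _ (he i)

variable {k K : Type} [Field k] [CharZero k] [Field K] [Algebra k K] {n m : ℕ}

/-- The forms in coordinates. -/
def NoZC (m : ℕ) (Bd : Place k K → Prop) (y : Fin n → K) : Prop :=
  ∃ (M : ℕ) (H : Fin M → MvPolynomial (Fin n) K) (N : ℕ), (∀ j, (H j).IsHomogeneous m) ∧
    (∀ j, ∀ v : Place k K, IsDivisorial v n → ∀ D : Derivation k K K, LogFld Bd v D →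
      v.Reg (sym y (H j) D)) ∧
    ∀ β : Fin n →₀ ℕ, β.degree = N → monomial β 1 ∈ Ideal.span (Set.range H)

theorem li_duals {y : Fin n → K} {E : Fin n → Derivation k K K}
    (hE : ∀ i j, E i (y j) = if i = j then 1 else 0) : LinearIndependent K E := by
  rw [Fintype.linearIndependent_iff]
  intro g hg i
  have h1 := congrArg (fun D : Derivation k K K => D (y i)) hg
  change (∑ j, g j • E j) (y i) = 0 at h1
  rw [Pool.Agent.Y174.val_sum y E hE g i] at h1
  exact h1

theorem noZC_of_noZeroLog {Bd : Place k K → Prop} {y : Fin n → K}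
    (hy : IsTranscendenceBasis k y) (h : NoZeroLog k K n m Bd) : NoZC m Bd y := by
  classical
  have hK0 : CharZero K := charZero_of_injective_algebraMap (algebraMap k K).injective
  obtain ⟨E, hE⟩ := Pool.Agent.W636.PG.exists_duals k K n y hy
  obtain ⟨M, H, N, hH, hN⟩ := null (K := K) (L := AlgebraicClosure K)
    {p | p.IsHomogeneous m ∧ SymLog n Bd (sym (k := k) y p)} (by
      intro c hc
      obtain ⟨s, p, hs, hlog, hp, hpc⟩ := h E (li_duals hE) c hc
      obtain ⟨q, hq, hqe⟩ := hs n E
      have hqp : q = p := by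
        refine MvPolynomial.funext fun a => ?_
        rw [← hqe, hp]
      subst hqp
      refine ⟨q, ⟨hq, ?_⟩, hpc⟩
      have hsq : s = sym y q := by
        funext D
        have h3 := hqe fun c => D (y c)
        rw [Pool.Agent.W73.PG.PULL.expand y hy E hE D] at h3
        exact h3
      rw [← hsq]
      exact hlog)
  exact ⟨M, H, N, fun j => (hH j).1, fun j => (hH j).2, hN⟩

theorem noZeroLog_of_noZC (hm : 1 ≤ m) {Bd : Place k K → Prop} {y : Fin n → K}
    (hy : IsTranscendenceBasis k y) (h : NoZC m Bd y) : NoZeroLog k K n m Bd := by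
  classical
  obtain ⟨M, H, N, hH, hreg, hN⟩ := h
  intro E hE c hc
  obtain ⟨E0, hE0⟩ := Pool.Agent.W636.PG.exists_duals k K n y hy
  -- the matrix of `E`
  let A : Matrix (Fin n) (Fin n) K := Matrix.of fun i b => E i (y b)
  have hA : A.det ≠ 0 := by
    intro h0
    obtain ⟨v, hv, hv0⟩ := Matrix.exists_vecMul_eq_zero_iff.2 h0
    rw [Fintype.linearIndependent_iff] at hE
    apply hv
    funext i
    refine hE v ?_ i
    have h1 : ∀ b, (∑ i, v i • E i) (y b) = 0 := by
      intro b
      rw [Pool.Agent.W721.PG.EFF2.der_sum]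
      exact congrFun hv0 b
    rw [← Pool.Agent.W73.PG.PULL.expand y hy E0 hE0 (∑ i, v i • E i)]
    refine Finset.sum_eq_zero fun b _ => ?_
    rw [h1, zero_smul]
  let ξ : Fin n → AlgebraicClosure K := Matrix.vecMul c (A.map (algebraMap K (AlgebraicClosure K)))
  have hξ : ξ ≠ 0 := by
    intro h0
    apply hc
    have h1 : (A.map (algebraMap K (AlgebraicClosure K))).det ≠ 0 := by
      have h2 := RingHom.map_det (algebraMap K (AlgebraicClosure K)) A
      change ((algebraMap K (AlgebraicClosure K)).mapMatrix A).det ≠ 0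
      rw [← h2]
      exact (map_ne_zero_iff _ (algebraMap K (AlgebraicClosure K)).injective).2 hA
    by_contra hne
    exact h1 (Matrix.exists_vecMul_eq_zero_iff.1 ⟨c, hne, h0⟩)
  obtain ⟨j, hj⟩ : ∃ j, aeval ξ (H j) ≠ 0 := by
    by_contra hcon
    push Not at hcon
    obtain ⟨b, hb⟩ : ∃ b, ξ b ≠ 0 := by
      by_contra h0
      push Not at h0
      exact hξ (funext h0)
    have h1 := hN (Finsupp.single b N) (by simp)
    rw [Ideal.mem_span_range_iff_exists_fun] at h1
    obtain ⟨g, hg⟩ := h1
    have h2 := congrArg (aeval ξ) hg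
    rw [map_sum, Finset.sum_eq_zero (fun j _ => by rw [map_mul, hcon, mul_zero]),
      aeval_monomial, map_one, one_mul, Finsupp.prod_single_index (h := fun i k => ξ i ^ k)
        (pow_zero _)] at h2
    exact pow_ne_zero N hb h2.symm
  refine ⟨sym y (H j), aeval (fun b => ∑ i, C (A i b) * X i) (H j), sym_isSymDiff y _ (hH j),
    hreg j, fun a => ?_, ?_⟩
  · rw [Pool.Agent.Y174.eval_aeval]
    unfold sym
    refine congrArg (fun f => eval f (H j)) (funext fun b => ?_)
    rw [Pool.Agent.W721.PG.EFF2.der_sum, map_sum]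
    refine Finset.sum_congr rfl fun i _ => ?_
    rw [map_mul, eval_C, eval_X]
    change a i * E i (y b) = E i (y b) * a i
    rw [mul_comm]
  · have h1 : aeval c (aeval (fun b => ∑ i, C (A i b) * X i) (H j)) = aeval ξ (H j) := by
      rw [← AlgHom.comp_apply, MvPolynomial.comp_aeval]
      congr 2
      funext b
      rw [map_sum]
      refine Finset.sum_congr rfl fun i _ => ?_
      rw [map_mul, aeval_X, aeval_C]
      exact mul_comm _ _
    rw [h1]
    exact hj

/-- `n` forms. -/
theorem exists_system (hm : 1 ≤ m) {Bd : Place k K → Prop} {y : Fin n → K} (h : NoZC m Bd y) :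
    ∃ (a : Fin n → MvPolynomial (Fin n) K) (N : ℕ), (∀ j, (a j).IsHomogeneous m) ∧
      (∀ j, ∀ v : Place k K, IsDivisorial v n → ∀ D : Derivation k K K, LogFld Bd v D →
        v.Reg (sym y (a j) D)) ∧
      ∀ β : Fin n →₀ ℕ, β.degree = N → monomial β 1 ∈ Ideal.span (Set.range a) := by
  classical
  obtain ⟨M, H, N, hH, hreg, hN⟩ := h
  obtain ⟨z, N1, hz⟩ := Pool.Agent.Y212.SD.t_GP k K n M m N hm H hH hN
  refine ⟨_, N1, fun i => ?_, fun i v hv D hD => ?_, hz⟩
  · refine IsHomogeneous.sum _ _ _ fun j _ => ?_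
    have h1 := (isHomogeneous_C (Fin n) (algebraMap k K (z i j))).mul (hH j)
    rw [zero_add] at h1
    exact h1
  · unfold sym
    rw [map_sum]
    have h1 : Ge v 0 (∑ j, eval (fun c => D (y c)) (C (algebraMap k K (z i j)) * H j)) := by
      refine Ge.sum _ _ fun j _ => ?_
      rw [map_mul, eval_C]
      exact reg_mul (reg_const _) (hreg j v hv D hD)
    exact h1

end

end Pool.Agent.Y174.SD
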