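import Pool.Agent.Y174.SD.G12
import Pool.Agent.Y174.W5

/-! Project SD: the geometric generic fibre, any Kodaira dimension. -/

set_option autoImplicit false
set_option linter.overlappingInstances false
set_option linter.unusedSectionVars false
set_option maxHeartbeats 400000

open FF MvPolynomial IntermediateField Pool.Agent.W619.PQ Pool.Agent.W619.PL Pool.Agent.W619.TW
  Pool.Agent.W603.LV Pool.Agent.W619.Y Pool.Agent.W824.PG Pool.Agent.Y174.T

namespace Pool.Agent.Y174.SD

section

theorem symLog_false {k : Type*} {K : Type*} [Field k] [Field K] [Algebra k K] {n : ℕ}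
    {s : Derivation k K K → K} : SymLog n (fun _ => False) s ↔ SymReg n s := by
  constructor
  · intro h v hv D hD
    exact h v hv D ⟨fun _ => hD, fun h => h.elim⟩
  · intro h v hv D hD
    exact h v hv D (hD.1 fun h => h)

theorem noZeroLog_false {k : Type*} {K : Type*} [Field k] [Field K] [Algebra k K] {n m : ℕ} :
    NoZeroLog k K n m (fun _ => False) ↔ NoZero k K n m := by
  unfold NoZeroLog NoZero
  simp only [symLog_false]

variable {k L K Λ F : Type} [Field k] [CharZero k] [Field L] [Field K] [Field Λ]
  [Field F] [Algebra k L] [Algebra k K] [Algebra L K] [IsScalarTower k L K] [Algebra L Λ]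
  [Algebra Λ F] [Algebra K F] [Algebra L F] [IsScalarTower L Λ F] [IsScalarTower L K F]
  [Algebra k Λ] [Algebra k F] [IsScalarTower k Λ F] [IsScalarTower k K F]
  [IsScalarTower k L Λ]

/-- restriction to the fibre -/
theorem noZeroLog_fib (hess : Algebra.EssFiniteType k K) [Algebra.IsAlgebraic L Λ] {d r m : ℕ}
    (hm : 1 ≤ m)
    (hL : Algebra.trdeg k L = d) (hn : Algebra.trdeg k K = (d + (r + 1) : ℕ))
    (hgenF : IntermediateField.adjoin Λ (Set.range (algebraMap K F)) = ⊤)
    {Bd : Place k K → Prop} (h : NoZeroLog k K (d + (r + 1)) m Bd) :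
    NoZeroLog Λ F (r + 1) m (BdFib Bd) := by
  classical
  have hL0 : CharZero L := charZero_of_injective_algebraMap (algebraMap k L).injective
  have hΛ0 : CharZero Λ := charZero_of_injective_algebraMap (algebraMap k Λ).injective
  have halg : Algebra.IsAlgebraic K F := alg_KF (L := L) hgenF
  have hLK := trdeg_LK (L := L) hL hn
  obtain ⟨t, ht⟩ := Pool.Agent.W636.PG.exists_basis k L d hL
  obtain ⟨x, hx⟩ := Pool.Agent.W636.PG.exists_basis L K (r + 1) hLK
  have hy := basis_append ht hx
  have hx' := basis_F hLK hgenF hx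
  obtain ⟨M, H, N, hH, hreg, hN⟩ := noZC_of_noZeroLog hy h
  refine noZeroLog_of_noZC hm hx' ⟨M, fun j => rest F d (r + 1) (map (algebraMap K F) (H j)), N,
    fun j => rest_hom ((hH j).map _), fun j w hw D' hD' => ?_, fun β hβ => ?_⟩
  · have h1 := sym_res hess hn ht.1 _ ⟨H j, hH j⟩ (hreg j) w hw D' hD'
    have h2 : sym (k := Λ) (algebraMap K F ∘ x)
        (rest F d (r + 1) (map (algebraMap K F) (H j))) D' =
        eval₂ (algebraMap K F) (fun c => D' (algebraMap K F
          (Fin.append (algebraMap L K ∘ t) x c))) (H j) := by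
      unfold sym
      rw [rest_eval, eval_map]
      congr 1
      funext c
      refine Fin.addCases (fun c => ?_) (fun i => ?_) c
      · rw [Fin.append_left, Fin.append_left, Function.comp_apply,
          ← IsScalarTower.algebraMap_apply L K F, IsScalarTower.algebraMap_apply L Λ F,
          Derivation.map_algebraMap]
      · rw [Fin.append_right, Fin.append_right]
        rfl
    rw [h2]
    exact h1
  · have h1 := hN (β.mapDomain (Fin.natAdd d)) (by
      rw [← hβ]
      exact Finsupp.degree_mapDomain _ _)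
    have h2 := Ideal.mem_map_of_mem (map (algebraMap K F)) h1
    rw [Ideal.map_span, ← Set.range_comp, map_monomial, map_one] at h2
    have h3 := Ideal.mem_map_of_mem (rest F d (r + 1)).toRingHom h2
    rw [Ideal.map_span, ← Set.range_comp] at h3
    have h4 : (rest F d (r + 1)).toRingHom (monomial (β.mapDomain (Fin.natAdd d)) 1) =
        monomial β 1 := by
      rw [← rename_monomial]
      exact rest_rename _
    rw [h4] at h3
    exact h3

/-- **Main theorem**, `κ ≤ 0`, without coordinates. -/
theorem main1 [IsAlgClosed k] {n m : ℕ} (hess : Algebra.EssFiniteType k K)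
    (hn : Algebra.trdeg k K = n) (hm : 1 ≤ m) {Bd : Place k K → Prop}
    {δ : Place k K → ℝ} (hδ : ∀ v, 0 ≤ δ v) (hB : ∀ v, Bd v → δ v = 1)
    (hκ : ¬ PairKod k K n δ 1) (h : NoZeroLog k K n m Bd) :
    ∃ M : IntermediateField K (AlgebraicClosure K), FiniteDimensional K M ∧ IsGalois K M ∧
      (∃ (η : Fin n → (Derivation k M M →ₗ[M] M)), LinearIndependent M η ∧
        ∀ i, ∀ w : Place k M, IsDivisorial w n → ∀ D : Derivation k M M,
          LogFld (BdOn Bd) w D → w.Reg (η i D)) ∧
      PairKod k K n δ 0 ∧ ∀ δ' : Place k M → ℝ, IsPull δ δ' →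
        (∀ a, PairKod k K n δ a ↔ PairKod k M n δ' a) ∧
        ∀ a, PairNum k M n δ' a → PairNum k K n δ a := by
  obtain ⟨y, hy⟩ := Pool.Agent.W636.PG.exists_basis k K n hn
  obtain ⟨a, N, ha, hreg, hN⟩ := exists_system hm (noZC_of_noZeroLog hy h)
  exact main0 hess hn hm hδ hB hκ y hy a ha hreg hN

end

end Pool.Agent.Y174.SD
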