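import Pool.Agent.Y174.SD.G1

/-! Project SD: the minimal relation between the powers of the Jacobian determinant and its
semi-invariant coefficients. -/

set_option autoImplicit false
set_option linter.unusedSectionVars false

open MvPolynomial Pool.Agent.Y174.T

namespace Pool.Agent.Y174.SD

section

theorem ie_sum {R S : Type*} [CommRing R] [CommRing S] (f : R →+* S) {ι : Type*} (s : Finset ι)
    (g : ι → S) (h : ∀ i ∈ s, f.IsIntegralElem (g i)) : f.IsIntegralElem (∑ i ∈ s, g i) := by
  letI := f.toAlgebra
  have h1 : ∀ i ∈ s, IsIntegral R (g i) := h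
  exact IsIntegral.sum g h1

theorem ie_prod {R S : Type*} [CommRing R] [CommRing S] (f : R →+* S) {ι : Type*} (s : Finset ι)
    (g : ι → S) (h : ∀ i ∈ s, f.IsIntegralElem (g i)) : f.IsIntegralElem (∏ i ∈ s, g i) := by
  letI := f.toAlgebra
  have h1 : ∀ i ∈ s, IsIntegral R (g i) := h
  exact IsIntegral.prod g h1

theorem ie_pow {R S : Type*} [CommRing R] [CommRing S] (f : R →+* S) {x : S}
    (h : f.IsIntegralElem x) (e : ℕ) : f.IsIntegralElem (x ^ e) := by
  letI := f.toAlgebra
  have h1 : IsIntegral R x := h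
  exact h1.pow e

/-- multiples of polynomials by powers of `D` are integral -/
theorem ie_poly {R : Type*} [CommRing R] {n : ℕ}
    (f : MvPolynomial (Fin n) R →ₐ[R] MvPolynomial (Fin n) R) {D : R}
    (hD : ∀ i, f.toRingHom.IsIntegralElem (C D * X i)) (p : MvPolynomial (Fin n) R) {s : ℕ}
    (hs : p.totalDegree ≤ s) : f.toRingHom.IsIntegralElem (C D ^ s * p) := by
  classical
  have hC : ∀ c : R, f.toRingHom.IsIntegralElem (C c) := by
    intro c
    have h1 : f.toRingHom (C c) = C c := by
      change f (C c) = C c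
      rw [← algebraMap_eq, AlgHom.commutes]
    have h2 := f.toRingHom.isIntegralElem_map (x := C c)
    rw [h1] at h2
    exact h2
  have h1 : C D ^ s * p = ∑ β ∈ p.support, C D ^ s * monomial β (coeff β p) := by
    conv_lhs => rw [← support_sum_monomial_coeff p]
    rw [Finset.mul_sum]
  rw [h1]
  refine ie_sum _ _ _ fun β hβ => ?_
  have h2 : β.degree ≤ s := by
    refine le_trans ?_ hs
    have := le_totalDegree hβ
    rw [Finsupp.degree_eq_sum]
    rw [Finsupp.sum_fintype _ _ (fun _ => rfl)] at this
    exact this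
  have h3 : C D ^ s * monomial β (coeff β p) =
      C (coeff β p) * (C D ^ (s - β.degree) * ∏ i, (C D * X i) ^ β i) := by
    have h4 : ∏ i, (C D * X i : MvPolynomial (Fin n) R) ^ β i =
        C D ^ β.degree * ∏ i, X i ^ β i := by
      simp only [mul_pow]
      rw [Finset.prod_mul_distrib, Finset.prod_pow_eq_pow_sum, Finsupp.degree_eq_sum]
    rw [h4, monomial_eq, Finsupp.prod_fintype _ _ (fun i => pow_zero _)]
    have h5 : (C D : MvPolynomial (Fin n) R) ^ s = C D ^ (s - β.degree) * C D ^ β.degree := by
      rw [← pow_add, Nat.sub_add_cancel h2]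
    rw [h5]
    ring
  rw [h3]
  refine RingHom.IsIntegralElem.mul _ (hC _) (RingHom.IsIntegralElem.mul _ ?_ ?_)
  · exact ie_pow _ (hC D) _
  · exact ie_prod _ _ _ fun i _ => ie_pow _ (hD i) _

/-- algebraic independence -/
theorem gen_inj {R : Type*} [CommRing R] [IsDomain R] {n : ℕ}
    (A : Fin n → MvPolynomial (Fin n) R) {D : R} (hD0 : D ≠ 0)
    (hD : ∀ i, (aeval A : MvPolynomial (Fin n) R →ₐ[R] MvPolynomial (Fin n) R).toRingHom.IsIntegralElem
      (C D * X i)) : AlgebraicIndependent R A := by
  classical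
  have h1 : Algebra.IsAlgebraic (Algebra.adjoin R (Set.range A)) (MvPolynomial (Fin n) R) := by
    refine ⟨fun p => ?_⟩
    have h2 := ie_poly (aeval A) hD p (le_refl _)
    obtain ⟨q, hq, hq0⟩ := h2
    have h3 : IsIntegral (Algebra.adjoin R (Set.range A)) (C D ^ p.totalDegree * p) := by
      have hr : ∀ x : MvPolynomial (Fin n) R,
          (aeval A : MvPolynomial (Fin n) R →ₐ[R] MvPolynomial (Fin n) R) x ∈
            Algebra.adjoin R (Set.range A) := by
        intro x
        rw [Algebra.adjoin_range_eq_range_aeval]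
        exact ⟨x, rfl⟩
      let g : MvPolynomial (Fin n) R →+* Algebra.adjoin R (Set.range A) :=
        (aeval A : MvPolynomial (Fin n) R →ₐ[R] MvPolynomial (Fin n) R).toRingHom.codRestrict _ hr
      refine ⟨q.map g, hq.map g, ?_⟩
      rw [Polynomial.eval₂_map]
      exact hq0
    have h4 : IsAlgebraic (Algebra.adjoin R (Set.range A)) (C D ^ p.totalDegree * p) :=
      h3.isAlgebraic
    have hD1 : (C D ^ p.totalDegree : MvPolynomial (Fin n) R) ≠ 0 :=
      pow_ne_zero _ (by simpa using hD0)
    have h5 : IsAlgebraic (Algebra.adjoin R (Set.range A))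
        (C D ^ p.totalDegree : MvPolynomial (Fin n) R) := by
      have h6 : (C D ^ p.totalDegree : MvPolynomial (Fin n) R) =
          algebraMap (Algebra.adjoin R (Set.range A)) (MvPolynomial (Fin n) R)
            (algebraMap R _ (D ^ p.totalDegree)) := by
        rw [← map_pow]
        rfl
      rw [h6]
      exact isAlgebraic_algebraMap _
    exact IsAlgebraic.of_mul (mem_nonZeroDivisors_of_ne_zero hD1) h5 h4
  have h2 := Algebra.IsAlgebraic.isTranscendenceBasis_of_lift_le_trdeg_of_finite R A (by
    rw [MvPolynomial.trdeg_of_isDomain]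
    simp)
  exact h2.1

end

end Pool.Agent.Y174.SD
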