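import Pool.Agent.Y174.SD.G2

/-! Project SD: the minimal relation between the powers of the Jacobian determinant and its
semi-invariant coefficients. -/

set_option autoImplicit false
set_option linter.unusedSectionVars false

open MvPolynomial Pool.Agent.Y174.T

namespace Pool.Agent.Y174.SD

section

theorem coeff_scale {σ R : Type*} [Finite σ] [CommRing R] (a : R) (r : MvPolynomial σ R)
    (μ : σ →₀ ℕ) :
    coeff μ (aeval (fun p => C a * X p : σ → MvPolynomial σ R) r) = a ^ μ.degree * coeff μ r := by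
  classical
  have := Fintype.ofFinite σ
  induction r using MvPolynomial.induction_on' with
  | monomial u c =>
    have h1 : (u.prod fun i e => (C a * X i : MvPolynomial σ R) ^ e) =
        monomial u (a ^ u.degree) := by
      rw [Finsupp.prod_fintype _ _ (fun i => pow_zero _)]
      simp only [mul_pow]
      rw [Finset.prod_mul_distrib, Finset.prod_pow_eq_pow_sum, monomial_eq,
        Finsupp.prod_fintype _ _ (fun i => pow_zero _), Finsupp.degree_eq_sum, C_pow]
    rw [aeval_monomial, h1, algebraMap_eq, C_mul_monomial, coeff_monomial, coeff_monomial]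
    split_ifs with h
    · subst h
      ring
    · rw [mul_zero]
  | add p q hp hq => rw [map_add, coeff_add, coeff_add, hp, hq, mul_add]

theorem lsub_scalar {R : Type*} [CommRing R] {n m : ℕ} (a : R) (p : MvPolynomial (Fin n) R)
    (hp : p.IsHomogeneous m) : lsub (Matrix.diagonal fun _ => a) p = C (a ^ m) * p := by
  have h1 : lsub (Matrix.diagonal fun _ => a) p =
      aeval (fun i => C a * X i : Fin n → MvPolynomial (Fin n) R) p := by
    unfold lsub
    congr 2
    funext c
    rw [Finset.sum_eq_single c]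
    · rw [Matrix.diagonal_apply_eq]
    · intro b _ hb
      rw [Matrix.diagonal_apply_ne _ hb, map_zero, zero_mul]
    · intro h
      exact absurd (Finset.mem_univ c) h
  rw [h1]
  ext d
  rw [coeff_scale, coeff_C_mul]
  by_cases hd : d.degree = m
  · rw [hd]
  · rw [hp.coeff_eq_zero hd, mul_zero, mul_zero]

/-- semi-invariants of weight zero are constants -/
theorem semi_zero {k : Type*} [Field k] [CharZero k] {n m : ℕ} (hm : 1 ≤ m) {r : Cf k n m}
    (hr : SemiInv r 0) : ∃ c : k, r = C c := by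
  classical
  refine ⟨coeff 0 r, ?_⟩
  have h1 := hr (Matrix.diagonal fun _ => 2) (by
    rw [Matrix.det_diagonal]
    exact Finset.prod_ne_zero_iff.2 fun _ _ => two_ne_zero)
  rw [pow_zero, C_1, one_mul] at h1
  have h2 : act (n := n) (m := m) (Matrix.diagonal fun _ => (2 : k)) r =
      aeval (fun p => C ((2 : k) ^ m) * X p : Fin n × Ex n m → Cf k n m) r := by
    unfold act
    congr 2
    funext p
    unfold trans
    have h3 : (Matrix.diagonal fun _ => (2 : k) : Matrix (Fin n) (Fin n) k).map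
        (C : k →+* Cf k n m) = Matrix.diagonal fun _ => (C 2 : Cf k n m) := by
      rw [Matrix.diagonal_map (map_zero _)]
    rw [h3, lsub_scalar _ _ (fm_hom _ _), coeff_C_mul, coeff_fm, C_pow]
  rw [h2] at h1
  ext μ
  rw [coeff_C]
  split_ifs with h
  · rw [h]
  · have h3 := congrArg (coeff μ) h1
    rw [coeff_scale] at h3
    by_contra hne
    have h4 : ((2 : k) ^ m) ^ μ.degree = 1 := by
      have : (((2 : k) ^ m) ^ μ.degree - 1) * coeff μ r = 0 := by
        rw [sub_mul, h3, one_mul, sub_self]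
      rcases mul_eq_zero.1 this with h5 | h5
      · exact sub_eq_zero.1 h5
      · exact absurd h5 hne
    rw [← pow_mul] at h4
    have h5 : (2 : ℕ) ^ (m * μ.degree) = 1 := by
      exact_mod_cast h4
    have h6 : m * μ.degree = 0 := by
      by_contra h7
      have := Nat.one_lt_two_pow h7
      omega
    rcases Nat.mul_eq_zero.1 h6 with h7 | h7
    · omega
    · exact h ((Finsupp.degree_eq_zero_iff μ).1 h7).symm

/-- The semi-invariance of the coefficients, abstract form. -/
theorem semi_abs {A B : Type*} [CommRing A] [CommRing B] (φ : B →+* A) (τ : A →+* A)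
    (τ' : B →+* B) (hτ : ∀ b, τ (φ b) = φ (τ' b)) {δ : A} {δ' : B} (hδ : φ δ' = δ) {ρ h : A}
    {w d M : ℕ} (h1 : τ ρ = δ ^ w * ρ) (h2 : τ h = δ ^ w * h) (P : Fin d → B)
    (hrel : ρ ^ M * h ^ d + ∑ i, φ (P i) * h ^ (i : ℕ) = 0)
    (hmin : ∀ Q : Fin d → B, ∑ i, φ (Q i) * h ^ (i : ℕ) = 0 → Q = 0) (i : Fin d) :
    δ' ^ (w * i) * τ' (P i) = δ' ^ (w * (M + d)) * P i := by
  have h3 := congrArg τ hrel
  rw [map_add, map_mul, map_pow, map_pow, map_sum, map_zero, h1, h2] at h3
  have h4 : ∀ i : Fin d, τ (φ (P i) * h ^ (i : ℕ)) = φ (τ' (P i)) * (δ ^ w * h) ^ (i : ℕ) := by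
    intro i
    rw [map_mul, map_pow, h2, hτ]
  rw [Finset.sum_congr rfl fun i _ => h4 i] at h3
  have hQ := hmin (fun i => δ' ^ (w * i) * τ' (P i) - δ' ^ (w * (M + d)) * P i) (by
    have h5 : ∀ i : Fin d, φ (δ' ^ (w * i) * τ' (P i) - δ' ^ (w * (M + d)) * P i) *
        h ^ (i : ℕ) = φ (τ' (P i)) * (δ ^ w * h) ^ (i : ℕ) -
          δ ^ (w * (M + d)) * (φ (P i) * h ^ (i : ℕ)) := by
      intro i
      rw [map_sub, map_mul, map_mul, map_pow, map_pow, hδ]
      ring
    rw [Finset.sum_congr rfl fun i _ => h5 i, Finset.sum_sub_distrib, ← Finset.mul_sum]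
    have h6 : ∑ i : Fin d, φ (P i) * h ^ (i : ℕ) = -(ρ ^ M * h ^ d) := by
      rw [eq_neg_iff_add_eq_zero, add_comm]
      exact hrel
    rw [h6]
    linear_combination h3)
  exact sub_eq_zero.1 (congrFun hQ i)

/-- the homomorphism given by the generic forms -/
noncomputable def phi (k : Type*) [Field k] (n m : ℕ) :
    MvPolynomial (Fin n) (Cf k n m) →+* MvPolynomial (Fin n) (Cf k n m) :=
  (aeval (gen k n m) : MvPolynomial (Fin n) (Cf k n m)
      →ₐ[Cf k n m] MvPolynomial (Fin n) (Cf k n m)).toRingHom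

theorem phi_apply {k : Type*} [Field k] {n m : ℕ} (p : MvPolynomial (Fin n) (Cf k n m)) :
    phi k n m p = aeval (gen k n m) p := rfl

theorem phi_C {k : Type*} [Field k] {n m : ℕ} (c : Cf k n m) : phi k n m (C c) = C c := by
  rw [phi_apply, aeval_C, algebraMap_eq]

theorem phi_X {k : Type*} [Field k] {n m : ℕ} (i : Fin n) : phi k n m (X i) = gen k n m i := by
  rw [phi_apply, aeval_X]

theorem spec_phi {k : Type*} [Field k] {n m : ℕ} (p : MvPolynomial (Fin n) (Cf k n m)) :
    map (constantCoeff : Cf k n m →+* k) (phi k n m p) =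
      C (constantCoeff (constantCoeff p)) := by
  induction p using MvPolynomial.induction_on with
  | C a => rw [phi_C, map_C, constantCoeff_C]
  | add p q hp hq => rw [map_add, map_add, hp, hq, map_add, map_add, map_add]
  | mul_X p i hp =>
    rw [map_mul, map_mul, phi_X]
    have h4 : map (constantCoeff : Cf k n m →+* k) (gen k n m i) = 0 := by
      unfold gen
      rw [map_fm]
      unfold fm
      refine Finset.sum_eq_zero fun d _ => ?_
      change monomial d.1 (constantCoeff (X (i, d) : Cf k n m)) = 0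
      rw [constantCoeff_X, monomial_zero]
    rw [h4, mul_zero, map_mul, constantCoeff_X, mul_zero, map_zero, map_zero]

/-- the weight is positive -/
theorem weight_pos {k : Type*} [Field k] {n m d M : ℕ} {c : k} (hn : 1 ≤ n) (hc : c ≠ 0)
    (P : Fin d → MvPolynomial (Fin n) (Cf k n m))
    (h : phi k n m (C (C c)) ^ M * X ⟨0, hn⟩ ^ d + ∑ i, phi k n m (P i) * X ⟨0, hn⟩ ^ (i : ℕ) = 0) :
    False := by
  classical
  have h2 := congrArg (map (constantCoeff : Cf k n m →+* k)) h
  rw [phi_C, map_add, map_mul, map_pow, map_C, map_pow, map_X, map_sum, map_zero,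
    constantCoeff_C] at h2
  have h4 := congrArg (coeff (Finsupp.single (⟨0, hn⟩ : Fin n) d)) h2
  rw [coeff_add, coeff_sum, coeff_zero, Finset.sum_eq_zero] at h4
  · rw [add_zero, ← C_pow, coeff_C_mul, coeff_X_pow, if_pos rfl, mul_one] at h4
    exact pow_ne_zero M hc h4
  · intro i _
    rw [map_mul, map_pow, map_X, spec_phi, coeff_C_mul, coeff_X_pow, if_neg, mul_zero]
    intro h6
    have h7 := Finsupp.single_injective _ h6
    have := i.2
    omega

theorem tau_phi {k : Type*} [Field k] {n m : ℕ} (g : Matrix (Fin n) (Fin n) k) (hg : g.det ≠ 0)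
    (p : MvPolynomial (Fin n) (Cf k n m)) : tau g (phi k n m p) =
      phi k n m (map (act g : Cf k n m →ₐ[k] Cf k n m).toRingHom p) := by
  rw [phi_apply, tau_aeval g hg]
  rfl

theorem min_rel (hINT : S_INT) (hMIN : S_MIN) {k : Type} [Field k] [CharZero k]
    {n m N : ℕ} (hm : 1 ≤ m) (hD : ∃ D : Cf k n m, Den k n m N D ∧ D ≠ 0) {r : Cf k n m}
    (hrirr : ∀ p : Cf k n m, Irreducible p → (∀ D, Den k n m N D → p ∣ D) → p ∣ r)
    (h : MvPolynomial (Fin n) (Cf k n m)) :
    ∃ (d M : ℕ) (P : Fin d → MvPolynomial (Fin n) (Cf k n m)),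
    phi k n m (C r) ^ M * h ^ d + ∑ i, phi k n m (P i) * h ^ (i : ℕ) = 0 ∧
    ∀ Q : Fin d → MvPolynomial (Fin n) (Cf k n m), ∑ i, phi k n m (Q i) * h ^ (i : ℕ) = 0 →
      Q = 0 := by
  obtain ⟨D0, hD0, hD00⟩ := hD
  have hint : ∀ D, Den k n m N D → ∀ i, (phi k n m).IsIntegralElem (C D * X i) :=
    fun D hD i => hINT (Cf k n m) n m N hm (gen k n m) gen_hom D hD i
  have hinj : Function.Injective (phi k n m) := gen_inj (gen k n m) hD00 (hint D0 hD0)
  exact hMIN (Cf k n m) (MvPolynomial (Fin n) (Cf k n m)) n (phi k n m) hinj h r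
      {D | Den k n m N D} ⟨D0, hD0, hD00⟩ (fun D hD => ⟨h.totalDegree, by
        rw [phi_C]
        exact ie_poly _ (hint D hD) h le_rfl⟩) (fun p hp h => hrirr p hp h)

/-- **The relation.** -/
theorem relation (hINT : S_INT) (hMIN : S_MIN) (hGCD : S_GCD) (k : Type) [Field k] [CharZero k]
    {n m N : ℕ} (hn : 1 ≤ n) (hm : 1 ≤ m) (hD : ∃ D : Cf k n m, Den k n m N D ∧ D ≠ 0) :
    ∃ (r : Cf k n m) (w d M : ℕ) (P : Fin d → MvPolynomial (Fin n) (Cf k n m)), 1 ≤ w ∧
      SemiInv r w ∧ (∀ D, Den k n m N D → r ∣ D) ∧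
      (C r ^ M * (jac (gen k n m) ^ w) ^ d +
        ∑ i, phi k n m (P i) * (jac (gen k n m) ^ w) ^ (i : ℕ) = 0) ∧
      ∀ (i : Fin d) (α : Fin n →₀ ℕ), SemiInv (coeff α (P i)) (w * (M + (d - i))) := by
  classical
  obtain ⟨r, w, hr0, hrinv, hrdvd, hrirr⟩ := hGCD k n m N hD
  -- the weight is positive
  have hw : 1 ≤ w := by
    by_contra hcon
    have hw0 : w = 0 := by omega
    subst hw0
    obtain ⟨c, hc⟩ := semi_zero hm hrinv
    subst hc
    obtain ⟨d, M, P, h1, -⟩ := min_rel hINT hMIN hm hD hrirr (X ⟨0, hn⟩)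
    exact weight_pos hn (fun h0 => hr0 (by rw [h0, map_zero])) P h1
  obtain ⟨d, M, P, h1, hmin⟩ := min_rel hINT hMIN hm hD hrirr (jac (gen k n m) ^ w)
  rw [phi_C] at h1
  refine ⟨r, w, d, M, P, hw, hrinv, hrdvd, h1, fun i α g hg => ?_⟩
  have h4 := semi_abs (phi k n m) (tau g)
    (map (act g : Cf k n m →ₐ[k] Cf k n m).toRingHom) (tau_phi g hg) (δ' := C (C g.det))
    (phi_C _) (ρ := C r) (h := jac (gen k n m) ^ w) (w := w) (by
      rw [tau_C, hrinv g hg, C_mul, C_pow, C_pow]) (by rw [map_pow, tau_jac g hg, mul_pow]) P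
    h1 hmin i
  have h5 := congrArg (coeff α) h4
  simp only [← C_pow, coeff_C_mul] at h5
  rw [coeff_map] at h5
  have h6 : (C (g.det ^ (w * (M + d))) : Cf k n m) =
      C (g.det ^ (w * i)) * C (g.det ^ (w * (M + (d - i)))) := by
    rw [← C_mul, ← pow_add]
    congr 2
    have := i.2
    rw [← mul_add]
    congr 1
    omega
  rw [h6, mul_assoc] at h5
  have h8 : (C (g.det ^ (w * (i : ℕ))) : Cf k n m) ≠ 0 := by
    rw [Ne, C_eq_zero]
    exact pow_ne_zero _ hg
  exact mul_left_cancel₀ h8 h5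

end

end Pool.Agent.Y174.SD
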