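import Pool.Agent.Y174.SD.G3
import Pool.Agent.Y174.V1
import Pool.Agent.Y761.SD.Const

/-! Project SD: derivations of the field of rational functions. -/

set_option autoImplicit false
set_option linter.unusedSectionVars false

open MvPolynomial Pool.Agent.Y174.T

namespace Pool.Agent.Y174.SD

section

/-- a derivation of a field given by an additive map -/
def zder {M : Type*} [Field M] (D : M →+ M) (hD : ∀ a b, D (a * b) = a * D b + b * D a) :
    Derivation ℤ M M := Derivation.mk' D.toIntLinearMap (fun a b => hD a b)

theorem zder_apply {M : Type*} [Field M] (D : M →+ M)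
    (hD : ∀ a b, D (a * b) = a * D b + b * D a) (x : M) : zder D hD x = D x := rfl

/-- The constants of a derivation are algebraically closed. -/
theorem der_alg {M : Type*} [Field M] [CharZero M] (D0 : M →+ M)
    (hD0 : ∀ a b, D0 (a * b) = a * D0 b + b * D0 a) {z : M}
    (p : Polynomial M) (hp : p.Monic) (hc : ∀ i, D0 (p.coeff i) = 0) (hz : p.eval z = 0) :
    D0 z = 0 := by
  obtain ⟨D, hDe⟩ : ∃ D : Derivation ℤ M M, ∀ x, D x = D0 x := ⟨zder D0 hD0, fun _ => rfl⟩
  rw [← hDe]
  replace hc : ∀ i, D (p.coeff i) = 0 := fun i => by rw [hDe, hc]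
  let S : Subfield M :=
    { carrier := {x | D x = 0}
      mul_mem' := fun {a b} ha hb => by
        change D (a * b) = 0
        rw [Derivation.leibniz, show D a = 0 from ha, show D b = 0 from hb, smul_zero, smul_zero,
          add_zero]
      one_mem' := D.map_one_eq_zero
      add_mem' := fun {a b} ha hb => by
        change D (a + b) = 0
        rw [map_add, show D a = 0 from ha, show D b = 0 from hb, add_zero]
      zero_mem' := map_zero D
      neg_mem' := fun {a} ha => by
        change D (-a) = 0
        rw [map_neg, show D a = 0 from ha, neg_zero]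
      inv_mem' := fun a ha => by
        change D a⁻¹ = 0
        rw [Derivation.leibniz_inv, show D a = 0 from ha, smul_zero] }
  let DS : Derivation S M M := Derivation.mk'
    { toFun := D
      map_add' := map_add D
      map_smul' := fun s x => by
        have h1 : D (s : M) = 0 := s.2
        change D ((s : M) * x) = (s : M) * D x
        rw [Derivation.leibniz, h1, smul_zero, add_zero, smul_eq_mul] } (fun a b => D.leibniz a b)
  have hint : IsIntegral S z := by
    have h1 : p ∈ Polynomial.lifts (algebraMap S M) := by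
      rw [Polynomial.lifts_iff_coeff_lifts]
      intro i
      exact ⟨⟨p.coeff i, hc i⟩, rfl⟩
    obtain ⟨q, hq, -, hqm⟩ := Polynomial.lifts_and_natDegree_eq_and_monic h1 hp
    refine ⟨q, hqm, ?_⟩
    rw [← Polynomial.eval_map, hq, hz]
  have h2 := Derivation.map_aeval DS (minpoly S z) z
  rw [minpoly.aeval, map_zero, smul_eq_mul] at h2
  have hirr := minpoly.irreducible hint
  have h3 := hirr.separable.aeval_derivative_ne_zero (minpoly.aeval S z)
  exact (mul_eq_zero.1 h2.symm).resolve_left h3

/-- the field of rational functions -/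
abbrev Mx (K : Type) [Field K] (n : ℕ) : Type := FractionRing (MvPolynomial (Fin n) K)

theorem basis_Mx (K : Type) [Field K] (n : ℕ) :
    IsTranscendenceBasis K (fun i => algebraMap (MvPolynomial (Fin n) K) (Mx K n) (X i)) := by
  have h1 : AlgebraicIndependent K (fun i => algebraMap (MvPolynomial (Fin n) K) (Mx K n) (X i)) :=
    (MvPolynomial.algebraicIndependent_X (Fin n) K).map' (f := IsScalarTower.toAlgHom K
      (MvPolynomial (Fin n) K) (Mx K n)) (IsFractionRing.injective _ _)
  rw [h1.isTranscendenceBasis_iff_isAlgebraic]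
  refine ⟨fun z => ?_⟩
  obtain ⟨a, b, hb, rfl⟩ := IsFractionRing.div_surjective (A := MvPolynomial (Fin n) K) z
  have hmem : ∀ p : MvPolynomial (Fin n) K, algebraMap _ (Mx K n) p ∈ Algebra.adjoin K
      (Set.range fun i => algebraMap (MvPolynomial (Fin n) K) (Mx K n) (X i)) := by
    intro p
    rw [Algebra.adjoin_range_eq_range_aeval]
    refine ⟨p, ?_⟩
    have h2 := MvPolynomial.aeval_algebraMap_apply (R := K) (Mx K n) (X : Fin n →
      MvPolynomial (Fin n) K) p
    rw [MvPolynomial.aeval_X_left, AlgHom.id_apply] at h2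
    exact h2
  have hb0 : algebraMap (MvPolynomial (Fin n) K) (Mx K n) b ≠ 0 :=
    (map_ne_zero_iff _ (IsFractionRing.injective _ _)).2 (nonZeroDivisors.ne_zero hb)
  refine ⟨Polynomial.C ⟨_, hmem b⟩ * Polynomial.X - Polynomial.C ⟨_, hmem a⟩, ?_, ?_⟩
  · intro h0
    have h2 := congrArg (fun p => Polynomial.coeff p 1) h0
    simp only [Polynomial.coeff_sub, Polynomial.coeff_C_mul, Polynomial.coeff_X_one, mul_one,
      Polynomial.coeff_C_succ, sub_zero, Polynomial.coeff_zero] at h2
    exact hb0 (congrArg Subtype.val h2)
  · rw [map_sub, map_mul, Polynomial.aeval_C, Polynomial.aeval_X, Polynomial.aeval_C]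
    change algebraMap _ (Mx K n) b * (algebraMap _ (Mx K n) a / algebraMap _ (Mx K n) b) -
      algebraMap _ (Mx K n) a = 0
    rw [mul_div_cancel₀ _ hb0, sub_self]

/-- Extension of a derivation to the field of rational functions, with given values on the
variables. -/
theorem exists_lift {k K : Type} [Field k] [CharZero k] [Field K] [Algebra k K] {N n : ℕ}
    (y : Fin N → K) (hy : IsTranscendenceBasis k y) (d : Derivation k K K) (u : Fin n → Mx K n) :
    ∃ D : Derivation k (Mx K n) (Mx K n),
      (∀ c : K, D (algebraMap K (Mx K n) c) = algebraMap K (Mx K n) (d c)) ∧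
      ∀ i, D (algebraMap (MvPolynomial (Fin n) K) (Mx K n) (X i)) = u i := by
  classical
  have hM0 : CharZero K := charZero_of_injective_algebraMap (algebraMap k K).injective
  have hb := Pool.Agent.Y174.basis_append hy (basis_Mx K n)
  obtain ⟨E, hE⟩ := Pool.Agent.W636.PG.exists_duals k (Mx K n) (N + n) _ hb
  obtain ⟨E0, hE0⟩ := Pool.Agent.W636.PG.exists_duals k K N y hy
  let c : Fin (N + n) → Mx K n := Fin.append (fun i => algebraMap K (Mx K n) (d (y i))) u
  let D : Derivation k (Mx K n) (Mx K n) := ∑ i, c i • E i
  have hD : ∀ j, D (Fin.append (algebraMap K (Mx K n) ∘ y)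
      (fun i => algebraMap (MvPolynomial (Fin n) K) (Mx K n) (X i)) j) = c j := by
    intro j
    change (∑ i, c i • E i) _ = _
    rw [Pool.Agent.W721.PG.EFF2.der_sum, Finset.sum_eq_single j]
    · rw [hE, if_pos rfl, mul_one]
    · intro b _ hb
      rw [hE, if_neg hb, mul_zero]
    · intro h
      exact absurd (Finset.mem_univ j) h
  refine ⟨D, fun z => ?_, fun i => ?_⟩
  · have h1 := Pool.Agent.W73.PG.PULL.chain y hy E0 hE0 D z
    rw [h1]
    have h2 : ∀ i, D (algebraMap K (Mx K n) (y i)) = algebraMap K (Mx K n) (d (y i)) := by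
      intro i
      have h3 := hD (Fin.castAdd n i)
      rw [Fin.append_left] at h3
      rw [Function.comp_apply] at h3
      rw [h3]
      exact Fin.append_left _ _ _
    rw [Finset.sum_congr rfl fun i _ => by rw [h2 i, ← map_mul], ← map_sum]
    congr 1
    have h4 := Pool.Agent.W73.PG.PULL.expand y hy E0 hE0 d
    conv_rhs => rw [← h4]
    rw [Pool.Agent.W721.PG.EFF2.der_sum]
  · have h3 := hD (Fin.natAdd N i)
    rw [Fin.append_right] at h3
    rw [h3]
    exact Fin.append_right _ _ _

end

end Pool.Agent.Y174.SD
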