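import Pool.Agent.Y174.SD.G4

/-! Project SD: derivations of the field of rational functions which kill a system of forms. -/

set_option autoImplicit false
set_option linter.unusedSectionVars false

open MvPolynomial Pool.Agent.Y174.T

namespace Pool.Agent.Y174.SD

section

variable {k K : Type} [Field k] [Field K] [Algebra k K] {n : ℕ}

/-- a derivation as an additive map -/
noncomputable def addD (d : Derivation k K K) : K →+ K := (d : K →ₗ[k] K).toAddMonoidHom

theorem addD_apply (d : Derivation k K K) (x : K) : addD d x = d x := rfl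

theorem addD_mul (d : Derivation k K K) (x y : K) : addD d (x * y) = x * addD d y + y * addD d x := by
  rw [addD_apply, Derivation.leibniz, smul_eq_mul, smul_eq_mul]
  rfl

/-- the derivation applied to the coefficients -/
noncomputable def cfd (d : Derivation k K K) : MvPolynomial (Fin n) K →+ MvPolynomial (Fin n) K :=
  Pool.Agent.Y761.SD.cf (Fin n) (addD d)

theorem coeff_cfd (d : Derivation k K K) (p : MvPolynomial (Fin n) K) (e : Fin n →₀ ℕ) :
    coeff e (cfd d p) = d (coeff e p) := Pool.Agent.Y761.SD.coeff_cf _ _ _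

theorem lift_poly {D : Derivation k (Mx K n) (Mx K n)} {d : Derivation k K K}
    (hD : ∀ c : K, D (algebraMap K (Mx K n) c) = algebraMap K (Mx K n) (d c))
    (p : MvPolynomial (Fin n) K) :
    D (algebraMap (MvPolynomial (Fin n) K) (Mx K n) p) =
      algebraMap (MvPolynomial (Fin n) K) (Mx K n) (cfd d p) +
        ∑ l, algebraMap (MvPolynomial (Fin n) K) (Mx K n) (pderiv l p) *
          D (algebraMap (MvPolynomial (Fin n) K) (Mx K n) (X l)) := by
  have h1 : ∀ q : MvPolynomial (Fin n) K, aeval (fun i => algebraMap (MvPolynomial (Fin n) K)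
      (Mx K n) (X i)) q = algebraMap (MvPolynomial (Fin n) K) (Mx K n) q := by
    intro q
    have h2 := MvPolynomial.aeval_algebraMap_apply (R := K) (Mx K n) (X : Fin n →
      MvPolynomial (Fin n) K) q
    rw [MvPolynomial.aeval_X_left, AlgHom.id_apply] at h2
    exact h2
  have h2 := Pool.Agent.Y761.SD.chain (addD d) (addD_mul d) (addD D) (addD_mul D) (B := Mx K n)
    (fun c => hD c) (fun i => algebraMap (MvPolynomial (Fin n) K) (Mx K n) (X i)) p
  rw [h1, h1] at h2
  simp only [h1] at h2
  exact h2

/-- a derivation which kills `a` -/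
theorem kills_aeval {D : Derivation k (Mx K n) (Mx K n)} {d : Derivation k K K}
    (hD : ∀ c : K, D (algebraMap K (Mx K n) c) = algebraMap K (Mx K n) (d c))
    {a : Fin n → MvPolynomial (Fin n) K}
    (ha : ∀ j, D (algebraMap (MvPolynomial (Fin n) K) (Mx K n) (a j)) = 0)
    (q : MvPolynomial (Fin n) K) (hq : ∀ e, d (coeff e q) = 0) :
    D (algebraMap (MvPolynomial (Fin n) K) (Mx K n) (aeval a q)) = 0 := by
  have h2 := Pool.Agent.Y761.SD.chain (addD d) (addD_mul d) (addD D) (addD_mul D) (B := Mx K n)
    (fun c => hD c) (fun i => algebraMap (MvPolynomial (Fin n) K) (Mx K n) (a i)) q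
  have h3 : aeval (fun i => algebraMap (MvPolynomial (Fin n) K) (Mx K n) (a i)) q =
      algebraMap (MvPolynomial (Fin n) K) (Mx K n) (aeval a q) :=
    MvPolynomial.aeval_algebraMap_apply (R := K) (Mx K n) a q
  have h4 : Pool.Agent.Y761.SD.cf (Fin n) (addD d) q = 0 := by
    ext e
    rw [Pool.Agent.Y761.SD.coeff_cf, coeff_zero]
    exact hq e
  rw [h3, h4, map_zero, zero_add] at h2
  refine Eq.trans h2 (Finset.sum_eq_zero fun l _ => ?_)
  change _ * D _ = 0
  rw [ha, mul_zero]

variable (a : Fin n → MvPolynomial (Fin n) K)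

/-- the Jacobian matrix over the field of rational functions -/
noncomputable def jm : Matrix (Fin n) (Fin n) (Mx K n) :=
  Matrix.of fun i j => algebraMap (MvPolynomial (Fin n) K) (Mx K n) (pderiv j (a i))

theorem det_jm : (jm a).det = algebraMap (MvPolynomial (Fin n) K) (Mx K n) (jac a) := by
  unfold jac
  rw [RingHom.map_det]
  rfl

/-- The Jacobian determinant is not zero. -/
theorem jac_ne [CharZero K] (hint : ∀ i, (aeval a : MvPolynomial (Fin n) K →ₐ[K]
      MvPolynomial (Fin n) K).toRingHom.IsIntegralElem (X i : MvPolynomial (Fin n) K)) :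
    jac a ≠ 0 := by
  classical
  intro h0
  have hdet : (jm a).det = 0 := by rw [det_jm, h0, map_zero]
  obtain ⟨v, hv, hv0⟩ := Matrix.exists_mulVec_eq_zero_iff.2 hdet
  have hb : IsTranscendenceBasis K (Fin.elim0 : Fin 0 → K) := by
    have h1 : AlgebraicIndependent K (Fin.elim0 : Fin 0 → K) := by
      rw [algebraicIndependent_empty_type_iff]
      exact (algebraMap K K).injective
    rw [h1.isTranscendenceBasis_iff_isAlgebraic]
    refine ⟨fun x => ?_⟩
    have h2 : x = algebraMap (Algebra.adjoin K (Set.range (Fin.elim0 : Fin 0 → K))) K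
      (algebraMap K _ x) := rfl
    rw [h2]
    exact isAlgebraic_algebraMap _
  obtain ⟨D, hD, hDX⟩ := exists_lift (k := K) (K := K) (N := 0) (n := n) Fin.elim0 hb 0 v
  have ha : ∀ j, D (algebraMap (MvPolynomial (Fin n) K) (Mx K n) (a j)) = 0 := by
    intro j
    rw [lift_poly hD]
    have h1 : cfd (0 : Derivation K K K) (a j) = 0 := by
      ext e
      rw [coeff_cfd, coeff_zero]
      rfl
    rw [h1, map_zero, zero_add]
    have h2 := congrFun hv0 j
    simp only [hDX]
    exact h2
  apply hv
  funext i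
  rw [← hDX i]
  obtain ⟨p, hp, hp0⟩ := hint i
  refine der_alg (M := Mx K n) (addD D) (addD_mul D) ((p.map (aeval a : MvPolynomial (Fin n) K →ₐ[K]
      MvPolynomial (Fin n) K).toRingHom).map (algebraMap (MvPolynomial (Fin n) K) (Mx K n)))
      ((hp.map _).map _) (fun e => ?_) ?_
  · rw [Polynomial.coeff_map, Polynomial.coeff_map]
    exact kills_aeval hD ha _ (fun e => rfl)
  · rw [Polynomial.eval_map, Polynomial.eval₂_map]
    have h1 := congrArg (algebraMap (MvPolynomial (Fin n) K) (Mx K n)) hp0
    rw [map_zero, Polynomial.hom_eval₂] at h1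
    exact h1

/-- The lift of a derivation which kills the forms. -/
theorem exists_killing [CharZero k] {N : ℕ} (y : Fin N → K) (hy : IsTranscendenceBasis k y)
    (d : Derivation k K K) (hJ : jac a ≠ 0) :
    ∃ D : Derivation k (Mx K n) (Mx K n),
      (∀ c : K, D (algebraMap K (Mx K n) c) = algebraMap K (Mx K n) (d c)) ∧
      (∀ j, D (algebraMap (MvPolynomial (Fin n) K) (Mx K n) (a j)) = 0) ∧
      ∀ i, ∃ p, algebraMap (MvPolynomial (Fin n) K) (Mx K n) (jac a) *
        D (algebraMap (MvPolynomial (Fin n) K) (Mx K n) (X i)) =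
          algebraMap (MvPolynomial (Fin n) K) (Mx K n) p := by
  classical
  have hdet : (jm a).det ≠ 0 := by
    rw [det_jm]
    exact (map_ne_zero_iff _ (IsFractionRing.injective _ _)).2 hJ
  have hu : IsUnit (jm a).det := isUnit_iff_ne_zero.2 hdet
  let b : Fin n → Mx K n := fun j =>
    -algebraMap (MvPolynomial (Fin n) K) (Mx K n) (cfd d (a j))
  obtain ⟨D, hD, hDX⟩ := exists_lift y hy d ((jm a)⁻¹.mulVec b)
  refine ⟨D, hD, fun j => ?_, fun i => ?_⟩
  · rw [lift_poly hD]
    simp only [hDX]
    have h1 : (jm a).mulVec ((jm a)⁻¹.mulVec b) = b := by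
      rw [Matrix.mulVec_mulVec, Matrix.mul_nonsing_inv _ hu, Matrix.one_mulVec]
    have h2 := congrFun h1 j
    have h3 : ∑ l, algebraMap (MvPolynomial (Fin n) K) (Mx K n) (pderiv l (a j)) *
        (jm a)⁻¹.mulVec b l = b j := h2
    rw [h3]
    simp only [b]
    rw [add_neg_cancel]
  · have h1 : algebraMap (MvPolynomial (Fin n) K) (Mx K n) (jac a) * (jm a)⁻¹.mulVec b i =
        (jm a).adjugate.mulVec b i := by
      rw [← det_jm, Matrix.inv_def, Matrix.smul_mulVec, Pi.smul_apply, smul_eq_mul, ← mul_assoc,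
        Ring.mul_inverse_cancel _ hu, one_mul]
    rw [hDX, h1]
    have h2 : (jm a).adjugate = (Matrix.of fun i j => pderiv j (a i)).adjugate.map
        (algebraMap (MvPolynomial (Fin n) K) (Mx K n)) := by
      have h3 := RingHom.map_adjugate (algebraMap (MvPolynomial (Fin n) K) (Mx K n))
        (Matrix.of fun i j => pderiv j (a i))
      exact h3.symm
    rw [h2]
    refine ⟨∑ j, (Matrix.of fun i j => pderiv j (a i)).adjugate i j *
      -(cfd d (a j)), ?_⟩
    rw [map_sum]
    change ∑ j, _ * b j = _
    refine Finset.sum_congr rfl fun j _ => ?_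
    rw [map_mul, map_neg]
    rfl

end

end Pool.Agent.Y174.SD
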