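import Pool.Agent.Y174.SD.G5

/-! Project SD: systems of forms over a field of functions with constant ratios of semi-invariants
are isotrivial. -/

set_option autoImplicit false
set_option linter.unusedSectionVars false
set_option maxHeartbeats 200000

open MvPolynomial Pool.Agent.Y174.T

namespace Pool.Agent.Y174.SD

section

variable {k K : Type} [Field k] [Field K] [Algebra k K] {n m : ℕ}

/-- the coefficients of a system of forms -/
noncomputable def cof (m : ℕ) (a : Fin n → MvPolynomial (Fin n) K) (p : Fin n × Ex n m) : K :=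
  coeff p.2.1 (a p.1)

theorem semi_pow {r : Cf k n m} {w : ℕ} (hr : SemiInv r w) (e : ℕ) : SemiInv (r ^ e) (w * e) := by
  intro g hg
  rw [map_pow, hr g hg, mul_pow, ← C_pow, ← pow_mul]

/-- The ratios of semi-invariants of the same weight are constants. -/
def Ratio (k : Type) {K : Type} [Field k] [Field K] [Algebra k K] {n : ℕ} (m : ℕ)
    (a : Fin n → MvPolynomial (Fin n) K) : Prop :=
  ∀ (W : ℕ) (Q1 Q2 : Cf k n m), SemiInv Q1 W → SemiInv Q2 W → aeval (cof m a) Q2 ≠ 0 →
    ∃ b : k, aeval (cof m a) Q1 = algebraMap k K b * aeval (cof m a) Q2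

theorem map_phi (a : Fin n → MvPolynomial (Fin n) K) (ha : ∀ j, (a j).IsHomogeneous m)
    (p : MvPolynomial (Fin n) (Cf k n m)) :
    map (aeval (cof m a) : Cf k n m →ₐ[k] K).toRingHom (phi k n m p) =
      aeval a (map (aeval (cof m a) : Cf k n m →ₐ[k] K).toRingHom p) := by
  induction p using MvPolynomial.induction_on with
  | C c => rw [phi_C, map_C, aeval_C, algebraMap_eq]
  | add p q hp hq => rw [map_add, map_add, hp, hq, map_add, map_add]
  | mul_X p i hp =>
    rw [map_mul, map_mul, hp, map_mul, map_mul, phi_X, map_X, aeval_X]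
    congr 1
    unfold gen
    rw [map_fm]
    refine hom_ext (m := m) (fm_hom _ _) (ha i) fun d => ?_
    rw [coeff_fm]
    change aeval (cof m a) (X (i, d)) = _
    rw [aeval_X]
    rfl

theorem map_gen' (a : Fin n → MvPolynomial (Fin n) K) (ha : ∀ j, (a j).IsHomogeneous m)
    (i : Fin n) : map (aeval (cof m a) : Cf k n m →ₐ[k] K).toRingHom (gen k n m i) = a i := by
  have h1 := map_phi (k := k) a ha (X i)
  rw [phi_X, map_X, aeval_X] at h1
  exact h1

theorem map_jac (a : Fin n → MvPolynomial (Fin n) K) (ha : ∀ j, (a j).IsHomogeneous m) :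
    map (aeval (cof m a) : Cf k n m →ₐ[k] K).toRingHom (jac (gen k n m)) = jac a := by
  rw [← jac_map]
  congr 1
  funext i
  exact map_gen' a ha i

theorem rel_abs {A A' : Type*} [CommRing A] [CommRing A'] [IsDomain A'] (Φ : A →+* A')
    {r h : A} {R h' : A'} (hr : Φ r = R) (hh : Φ h = h') (hR : R ≠ 0) {d M w : ℕ}
    (P : Fin d → A) (b : Fin d → A') (hP : ∀ i : Fin d, Φ (P i) = R ^ (M + (d - (i : ℕ))) * b i)
    (hrel : r ^ M * (h ^ w) ^ d + ∑ i : Fin d, P i * (h ^ w) ^ (i : ℕ) = 0) :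
    (h' ^ w) ^ d + ∑ i : Fin d, R ^ (d - (i : ℕ)) * b i * (h' ^ w) ^ (i : ℕ) = 0 := by
  have h1 := congrArg Φ hrel
  rw [map_add, map_mul, map_pow, map_pow, map_pow, map_sum, map_zero, hr, hh] at h1
  have h2 : ∀ i : Fin d, Φ (P i * (h ^ w) ^ (i : ℕ)) =
      R ^ M * (R ^ (d - (i : ℕ)) * b i * (h' ^ w) ^ (i : ℕ)) := by
    intro i
    rw [map_mul, map_pow, map_pow, hh, hP, pow_add]
    ring
  rw [Finset.sum_congr rfl fun i _ => h2 i, ← Finset.mul_sum, ← mul_add] at h1
  exact (mul_eq_zero.1 h1).resolve_left (pow_ne_zero _ hR)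

/-- the evaluation of the coefficients at a system of forms -/
noncomputable def evc (k : Type) {K : Type} [Field k] [Field K] [Algebra k K] {n : ℕ} (m : ℕ)
    (a : Fin n → MvPolynomial (Fin n) K) :
    MvPolynomial (Fin n) (Cf k n m) →+* MvPolynomial (Fin n) K :=
  map (aeval (cof m a) : Cf k n m →ₐ[k] K).toRingHom

theorem evc_C (a : Fin n → MvPolynomial (Fin n) K) (c : Cf k n m) :
    evc k m a (C c) = C (aeval (cof m a) c) := by
  unfold evc
  rw [map_C]
  rfl

theorem coeff_evc (a : Fin n → MvPolynomial (Fin n) K) (p : MvPolynomial (Fin n) (Cf k n m))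
    (α : Fin n →₀ ℕ) : coeff α (evc k m a p) = aeval (cof m a) (coeff α p) := by
  unfold evc
  rw [coeff_map]
  rfl

theorem evc_phi (a : Fin n → MvPolynomial (Fin n) K) (ha : ∀ j, (a j).IsHomogeneous m)
    (p : MvPolynomial (Fin n) (Cf k n m)) :
    evc k m a (phi k n m p) = aeval a (evc k m a p) := map_phi a ha p

theorem exists_B {a : Fin n → MvPolynomial (Fin n) K} (hr : Ratio k m a) {r : Cf k n m} {w d M : ℕ} (hrs : SemiInv r w)
    (hρ : aeval (cof m a) r ≠ 0) (P : Fin d → MvPolynomial (Fin n) (Cf k n m))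
    (hP : ∀ (i : Fin d) (α : Fin n →₀ ℕ), SemiInv (coeff α (P i)) (w * (M + (d - i)))) :
    ∃ B : Fin d → MvPolynomial (Fin n) k, ∀ i : Fin d, evc k m a (P i) =
      C (aeval (cof m a) r ^ (M + (d - (i : ℕ)))) * map (algebraMap k K) (B i) := by
  classical
  have hb : ∀ (i : Fin d) (α : Fin n →₀ ℕ), ∃ b : k, aeval (cof m a) (coeff α (P i)) =
      algebraMap k K b * aeval (cof m a) r ^ (M + (d - (i : ℕ))) := by
    intro i α
    have h1 := hr (w * (M + (d - i))) (coeff α (P i)) (r ^ (M + (d - (i : ℕ)))) (hP i α)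
      (semi_pow hrs _) (by rw [map_pow]; exact pow_ne_zero _ hρ)
    rw [map_pow] at h1
    exact h1
  choose b hb using hb
  refine ⟨fun i => ∑ α ∈ (P i).support, monomial α (b i α), fun i => ?_⟩
  ext α
  rw [coeff_evc, coeff_C_mul, coeff_map, coeff_sum]
  simp only [coeff_monomial]
  rw [Finset.sum_ite_eq' (P i).support α]
  split_ifs with h
  · rw [hb, mul_comm]
  · rw [notMem_support_iff.1 h, map_zero, map_zero, mul_zero]

/-- the relation over the field of functions -/
theorem relation_at (hINT : S_INT) (hMIN : S_MIN) (hGCD : S_GCD) (hCR : S_CRAMER) [CharZero k]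
    {N : ℕ} (hn : 1 ≤ n) (hm : 1 ≤ m) (a : Fin n → MvPolynomial (Fin n) K)
    (ha : ∀ j, (a j).IsHomogeneous m)
    (hN : ∀ β : Fin n →₀ ℕ, β.degree = N → monomial β 1 ∈ Ideal.span (Set.range a))
    (hr : Ratio k m a) :
    ∃ (ρ : K) (w d : ℕ) (B : Fin d → MvPolynomial (Fin n) k), 1 ≤ w ∧ ρ ≠ 0 ∧
      (jac a ^ w) ^ d + ∑ i : Fin d, C ρ ^ (d - (i : ℕ)) * aeval a (map (algebraMap k K) (B i)) *
        (jac a ^ w) ^ (i : ℕ) = 0 := by
  classical
  obtain ⟨D, hD, hD0⟩ := hCR k K n m N (cof m a) (by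
    intro β hβ
    have h1 : fm (cof m a) = a := by
      funext j
      exact fm_coeff ha j
    rw [h1]
    exact hN β hβ)
  have hDne : D ≠ 0 := by
    rintro rfl
    exact hD0 (map_zero _)
  obtain ⟨r, w, d, M, P, hw, hrs, hrd, hrel, hP⟩ := relation hINT hMIN hGCD k hn hm ⟨D, hD, hDne⟩
  have hρ : aeval (cof m a) r ≠ 0 := by
    intro h0
    obtain ⟨q, hq⟩ := hrd D hD
    apply hD0
    rw [hq, map_mul, h0, zero_mul]
  obtain ⟨B, hB⟩ := exists_B hr hrs hρ P hP
  refine ⟨aeval (cof m a) r, w, d, B, hw, hρ, ?_⟩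
  refine rel_abs (evc k m a) (evc_C a r) (map_jac a ha) (fun h0 => hρ (C_eq_zero.1 h0))
    (fun i => phi k n m (P i)) (fun i => aeval a (map (algebraMap k K) (B i))) (fun i => ?_) hrel
  change evc k m a (phi k n m (P i)) = _
  rw [evc_phi a ha, hB, map_mul, aeval_C, algebraMap_eq, C_pow]

end

end Pool.Agent.Y174.SD
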