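import Pool.Agent.Y174.SD.G6

/-! Project SD: the Jacobian determinant and the derivations. -/

set_option autoImplicit false
set_option linter.unusedSectionVars false
set_option maxHeartbeats 200000

open MvPolynomial Pool.Agent.Y174.T

namespace Pool.Agent.Y174.SD

section

variable {k K : Type} [Field k] [Field K] [Algebra k K] {n m : ℕ}

/-- A lift of a derivation which kills the forms multiplies the Jacobian determinant by a
function. -/
theorem jac_const [CharZero k] {D : Derivation k (Mx K n) (Mx K n)} {d : Derivation k K K}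
    (hD : ∀ c : K, D (algebraMap K (Mx K n) c) = algebraMap K (Mx K n) (d c))
    {a : Fin n → MvPolynomial (Fin n) K}
    (ha : ∀ j, D (algebraMap (MvPolynomial (Fin n) K) (Mx K n) (a j)) = 0)
    {ρ : K} {w e : ℕ} {B : Fin e → MvPolynomial (Fin n) k} (hw : 1 ≤ w) (hρ : ρ ≠ 0)
    (hJ : jac a ≠ 0)
    (hrel : (jac a ^ w) ^ e + ∑ i : Fin e, C ρ ^ (e - (i : ℕ)) *
      aeval a (map (algebraMap k K) (B i)) * (jac a ^ w) ^ (i : ℕ) = 0) :
    ∃ l : K, D (algebraMap (MvPolynomial (Fin n) K) (Mx K n) (jac a)) =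
      algebraMap (MvPolynomial (Fin n) K) (Mx K n) (C l * jac a) := by
  classical
  have hK0 : CharZero K := charZero_of_injective_algebraMap (algebraMap k K).injective
  have hM0 : CharZero (Mx K n) :=
    charZero_of_injective_algebraMap (algebraMap K (Mx K n)).injective
  set ι := algebraMap (MvPolynomial (Fin n) K) (Mx K n) with hι
  have hιC : ∀ c : K, ι (C c) = algebraMap K (Mx K n) c := fun c => by
    rw [IsScalarTower.algebraMap_apply K (MvPolynomial (Fin n) K) (Mx K n), algebraMap_eq]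
  have hρ' : ι (C ρ) ≠ 0 := by
    rw [hιC]
    exact (map_ne_zero_iff _ (algebraMap K (Mx K n)).injective).2 hρ
  have hJ' : ι (jac a) ≠ 0 := (map_ne_zero_iff _ (IsFractionRing.injective _ _)).2 hJ
  let H : Mx K n := ι (jac a) ^ w / ι (C ρ)
  have hH : H ^ e + ∑ i : Fin e, ι (aeval a (map (algebraMap k K) (B i))) * H ^ (i : ℕ) = 0 := by
    have h1 := congrArg ι hrel
    rw [map_add, map_sum, map_zero, map_pow, map_pow] at h1
    have h2 : ∀ i : Fin e, ι (C ρ ^ (e - (i : ℕ)) * aeval a (map (algebraMap k K) (B i)) *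
        (jac a ^ w) ^ (i : ℕ)) = ι (C ρ) ^ e * (ι (aeval a (map (algebraMap k K) (B i))) *
          H ^ (i : ℕ)) := by
      intro i
      rw [map_mul, map_mul, map_pow, map_pow, map_pow]
      simp only [H]
      rw [div_pow]
      have h3 : ι (C ρ) ^ e = ι (C ρ) ^ (e - (i : ℕ)) * ι (C ρ) ^ (i : ℕ) := by
        rw [← pow_add]
        congr 1
        have := i.2
        omega
      rw [h3]
      have h4 : ι (C ρ) ^ (i : ℕ) ≠ 0 := pow_ne_zero _ hρ'
      field_simp
    rw [Finset.sum_congr rfl fun i _ => h2 i, ← Finset.mul_sum] at h1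
    have h5 : (ι (jac a) ^ w) ^ e = ι (C ρ) ^ e * H ^ e := by
      rw [← mul_pow]
      simp only [H]
      rw [mul_div_cancel₀ _ hρ']
    rw [h5, ← mul_add] at h1
    exact (mul_eq_zero.1 h1).resolve_left (pow_ne_zero _ hρ')
  have hDH : D H = 0 := by
    let q : Polynomial (Mx K n) := ∑ i : Fin e,
      Polynomial.C (ι (aeval a (map (algebraMap k K) (B i)))) * Polynomial.X ^ (i : ℕ)
    have hq : q.degree < e := by
      refine (Polynomial.degree_sum_le _ _).trans_lt ((Finset.sup_lt_iff
        (WithBot.bot_lt_coe e)).2 ?_)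
      intro i _
      refine (Polynomial.degree_C_mul_X_pow_le _ _).trans_lt ?_
      exact WithBot.coe_lt_coe.2 i.2
    refine der_alg (addD D) (addD_mul D) (Polynomial.X ^ e + q)
      (Polynomial.monic_X_pow_add hq) (fun j => ?_) ?_
    · rw [addD_apply, Polynomial.coeff_add, map_add, Polynomial.coeff_X_pow,
        Polynomial.finsetSum_coeff, map_sum, Finset.sum_eq_zero, add_zero]
      · split_ifs
        · exact D.map_one_eq_zero
        · exact map_zero D
      · intro i _
        rw [Polynomial.coeff_C_mul, Polynomial.coeff_X_pow]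
        split_ifs
        · rw [mul_one]
          refine kills_aeval hD ha _ fun f => ?_
          rw [coeff_map]
          exact d.map_algebraMap _
        · rw [mul_zero]
          exact map_zero D
    · rw [Polynomial.eval_add, Polynomial.eval_pow, Polynomial.eval_X, Polynomial.eval_finsetSum]
      refine Eq.trans ?_ hH
      congr 1
      refine Finset.sum_congr rfl fun i _ => ?_
      rw [Polynomial.eval_mul, Polynomial.eval_C, Polynomial.eval_pow, Polynomial.eval_X]
  obtain ⟨w', rfl⟩ : ∃ w', w = w' + 1 := ⟨w - 1, by omega⟩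
  have h1 : ι (jac a) ^ (w' + 1) = ι (C ρ) * H := by
    simp only [H]
    rw [mul_div_cancel₀ _ hρ']
  have h2 := congrArg D h1
  rw [Derivation.leibniz_pow, Derivation.leibniz, hDH, smul_zero, zero_add, Nat.add_sub_cancel,
    smul_eq_mul, smul_eq_mul, nsmul_eq_mul] at h2
  refine ⟨d ρ / ((w' + 1 : ℕ) * ρ), ?_⟩
  have h3 : ((w' + 1 : ℕ) : Mx K n) ≠ 0 := Nat.cast_ne_zero.2 (Nat.succ_ne_zero w')
  have h4 : ι (jac a) ^ w' ≠ 0 := pow_ne_zero _ hJ'
  rw [map_mul]
  have h5 : ι (C (d ρ / ((w' + 1 : ℕ) * ρ))) = D (ι (C ρ)) / (((w' + 1 : ℕ) : Mx K n) * ι (C ρ)) := by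
    rw [hιC, hιC, hD, map_div₀, map_mul, map_natCast]
  rw [h5]
  have h6 : H = ι (jac a) ^ w' * ι (jac a) / ι (C ρ) := by
    simp only [H]
    rw [pow_succ]
  rw [h6] at h2
  have h7 : ι (jac a) ^ w' * (((w' + 1 : ℕ) : Mx K n) * ι (C ρ) * D (ι (jac a))) =
      ι (jac a) ^ w' * (D (ι (C ρ)) * ι (jac a)) := by
    have h8 : ι (jac a) ^ w' * (((w' + 1 : ℕ) : Mx K n) * ι (C ρ) * D (ι (jac a))) =
        ι (C ρ) * (((w' + 1 : ℕ) : Mx K n) * (ι (jac a) ^ w' * D (ι (jac a)))) := by ring
    rw [h8, h2]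
    field_simp
  have h9 := mul_left_cancel₀ h4 h7
  rw [div_mul_eq_mul_div, eq_div_iff (mul_ne_zero h3 hρ'), ← h9]
  ring

end

end Pool.Agent.Y174.SD
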