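import Pool.Agent.Y174.SD.G7

/-! Project SD: systems of forms with constant ratios of semi-invariants are isotrivial. -/

set_option autoImplicit false
set_option linter.unusedSectionVars false
set_option maxHeartbeats 400000

open MvPolynomial Pool.Agent.Y174.T

namespace Pool.Agent.Y174.SD

section

theorem coeff_mul_lin {R : Type*} [CommRing R] {n e : ℕ} {q : MvPolynomial (Fin n) R}
    (hq : q.IsHomogeneous e) (p : MvPolynomial (Fin n) R) (f : Fin n →₀ ℕ)
    (hf : f.degree = e + 1) :
    coeff f (q * ∑ l, C (coeff (Finsupp.single l 1) p) * X l) = coeff f (q * p) := by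
  classical
  rw [coeff_mul, coeff_mul]
  refine Finset.sum_congr rfl fun x hx => ?_
  rw [Finset.HasAntidiagonal.mem_antidiagonal] at hx
  by_cases hx1 : x.1.degree = e
  · congr 1
    have hx2 : x.2.degree = 1 := by
      have h1 := congrArg Finsupp.degree hx
      rw [map_add, hx1, hf] at h1
      omega
    have h2 : ∃ l, x.2 = Finsupp.single l 1 := by
      have h3 : x.2 ≠ 0 := by
        intro h0
        rw [h0] at hx2
        simp at hx2
      obtain ⟨l, hl⟩ : ∃ l, x.2 l ≠ 0 := by
        by_contra hcon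
        push Not at hcon
        exact h3 (Finsupp.ext hcon)
      refine ⟨l, ?_⟩
      have h4 := Finset.add_sum_erase Finset.univ (fun i => x.2 i) (Finset.mem_univ l)
      rw [Finsupp.degree_eq_sum] at hx2
      rw [hx2] at h4
      have h5 : x.2 l = 1 := by omega
      have h6 : ∑ i ∈ Finset.univ.erase l, x.2 i = 0 := by omega
      ext j
      by_cases hj : j = l
      · subst hj
        rw [Finsupp.single_eq_same, h5]
      · rw [Finsupp.single_eq_of_ne hj,
          Finset.sum_eq_zero_iff.1 h6 j (Finset.mem_erase.2 ⟨hj, Finset.mem_univ j⟩)]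
    obtain ⟨l, hl⟩ := h2
    rw [hl, coeff_sum, Finset.sum_eq_single l]
    · rw [coeff_C_mul, coeff_X, if_pos rfl, mul_one]
    · intro b _ hb
      rw [coeff_C_mul, coeff_X, if_neg, mul_zero]
      intro h7
      exact hb (Finsupp.single_left_injective one_ne_zero h7)
    · intro h
      exact absurd (Finset.mem_univ l) h
  · rw [hq.coeff_eq_zero hx1, zero_mul, zero_mul]

variable {k K : Type} [Field k] [Field K] [Algebra k K] {n m : ℕ}

/-- The matrix of a lift of a derivation without poles. -/
theorem exists_matrix (hPOLE : S_POLE) [CharZero k] {N : ℕ} (y : Fin N → K)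
    (hy : IsTranscendenceBasis k y) (hm : 1 ≤ m) {a : Fin n → MvPolynomial (Fin n) K}
    (ha : ∀ j, (a j).IsHomogeneous m)
    (hint : ∀ i, (aeval a : MvPolynomial (Fin n) K →ₐ[K] MvPolynomial (Fin n) K).toRingHom.IsIntegralElem
      (X i : MvPolynomial (Fin n) K)) (hJ : jac a ≠ 0)
    {ρ : K} {w e : ℕ} {B : Fin e → MvPolynomial (Fin n) k} (hw : 1 ≤ w) (hρ : ρ ≠ 0)
    (hrel : (jac a ^ w) ^ e + ∑ i : Fin e, C ρ ^ (e - (i : ℕ)) *
      aeval a (map (algebraMap k K) (B i)) * (jac a ^ w) ^ (i : ℕ) = 0)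
    (d : Derivation k K K) :
    ∃ b : Matrix (Fin n) (Fin n) K, ∀ j (f : Fin n →₀ ℕ), d (coeff f (a j)) +
      coeff f (∑ l, pderiv l (a j) * ∑ p, C (b l p) * X p) = 0 := by
  classical
  have hK0 : CharZero K := charZero_of_injective_algebraMap (algebraMap k K).injective
  obtain ⟨D, hD, hDa, hDJ⟩ := exists_killing a y hy d hJ
  obtain ⟨l, hl⟩ := jac_const hD hDa hw hρ hJ hrel
  have hιC : ∀ c : K, algebraMap (MvPolynomial (Fin n) K) (Mx K n) (C c) =
      algebraMap K (Mx K n) c := fun c => by
    rw [IsScalarTower.algebraMap_apply K (MvPolynomial (Fin n) K) (Mx K n), algebraMap_eq]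
  have hDc : ∀ c : K, ∃ c' : K, zder (addD D) (addD_mul D)
      (algebraMap (MvPolynomial (Fin n) K) (Mx K n) (C c)) =
      algebraMap (MvPolynomial (Fin n) K) (Mx K n) (C c') := fun c => ⟨d c, by
    change D _ = _
    rw [hιC, hιC, hD]⟩
  have h1 := hPOLE K (Mx K n) n a hint (zder (addD D) (addD_mul D)) hDc hDa (jac a) hJ hDJ
    ⟨l, hl⟩
  choose p hp using h1
  have hp' : ∀ i, D (algebraMap (MvPolynomial (Fin n) K) (Mx K n) (X i)) =
      algebraMap (MvPolynomial (Fin n) K) (Mx K n) (p i) := hp
  refine ⟨Matrix.of fun l q => coeff (Finsupp.single q 1) (p l), fun j f => ?_⟩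
  have h2 : cfd d (a j) + ∑ l, pderiv l (a j) * p l = 0 := by
    apply IsFractionRing.injective (MvPolynomial (Fin n) K) (Mx K n)
    rw [map_zero, ← hDa j, lift_poly hD, map_add, map_sum]
    congr 1
    refine Finset.sum_congr rfl fun l _ => ?_
    rw [map_mul, hp']
  have h3 := congrArg (coeff f) h2
  rw [coeff_add, coeff_cfd, coeff_zero] at h3
  have hhom : ∀ l, (pderiv l (a j)).IsHomogeneous (m - 1) := fun l => (ha j).pderiv
  by_cases hf : f.degree = m
  · rw [coeff_sum] at h3 ⊢
    rw [← h3]
    congr 1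
    refine Finset.sum_congr rfl fun l _ => ?_
    have h4 := coeff_mul_lin (hhom l) (p l) f (by omega)
    rw [← h4]
    rfl
  · rw [(ha j).coeff_eq_zero hf, map_zero, zero_add]
    refine IsHomogeneous.coeff_eq_zero (n := m) ?_ hf
    refine IsHomogeneous.sum _ _ _ fun l _ => ?_
    have h4 : (∑ p_1, C ((Matrix.of fun l q => coeff (Finsupp.single q 1) (p l)) l p_1) *
        X p_1 : MvPolynomial (Fin n) K).IsHomogeneous 1 := by
      refine IsHomogeneous.sum _ _ _ fun q _ => ?_
      simpa using (isHomogeneous_C (Fin n) _).mul (isHomogeneous_X K q)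
    have h5 := (hhom l).mul h4
    rw [Nat.sub_add_cancel hm] at h5
    exact h5

/-- functions killed by all derivations are constants -/
theorem const_of_kills [IsAlgClosed k] [CharZero k] {N : ℕ} (y : Fin N → K)
    (hy : IsTranscendenceBasis k y) (E : Fin N → Derivation k K K)
    (hE : ∀ i j, E i (y j) = if i = j then 1 else 0) (c : K) (hc : ∀ i, E i c = 0) :
    ∃ b : k, algebraMap k K b = c := by
  classical
  by_contra hcon
  have htr : Transcendental k c := by
    intro halg
    apply hcon
    have h1 : IsIntegral k c := halg.isIntegral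
    have h2 : (minpoly k c).degree = 1 :=
      IsAlgClosed.degree_eq_one_of_irreducible k (minpoly.irreducible h1)
    exact minpoly.mem_range_of_degree_eq_one k c h2
  have h1 : AlgebraicIndepOn k id ({c} : Set K) := by
    have h2 : AlgebraicIndependent k (fun i : ({c} : Set K) => (i : K)) :=
      algebraicIndependent_unique_type_iff.2 htr
    exact h2
  obtain ⟨t, hct, ht⟩ := exists_isTranscendenceBasis_superset h1
  have hcard : Cardinal.mk t = N := by
    have h3 := ht.cardinalMk_eq_trdeg
    have h4 := hy.lift_cardinalMk_eq_trdeg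
    rw [h3]
    simpa using h4.symm
  have hfin : Finite t := by
    rw [← Cardinal.lt_aleph0_iff_finite, hcard]
    exact Cardinal.natCast_lt_aleph0
  have hN : Nat.card t = N := by
    rw [Nat.card, hcard]
    simp
  let eq : Fin N ≃ t := (Finite.equivFinOfCardEq hN).symm
  have hb := ht.comp_equiv eq
  obtain ⟨E', hE'⟩ := Pool.Agent.W636.PG.exists_duals k K N _ hb
  have h5 := hE' (eq.symm ⟨c, hct rfl⟩) (eq.symm ⟨c, hct rfl⟩)
  rw [if_pos rfl, Function.comp_apply, Equiv.apply_symm_apply] at h5
  have h6 := Pool.Agent.W73.PG.PULL.expand y hy E hE (E' (eq.symm ⟨c, hct rfl⟩))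
  rw [← h6, Pool.Agent.W721.PG.EFF2.der_sum] at h5
  rw [Finset.sum_eq_zero (fun i _ => by
    change _ * E i c = 0
    rw [hc, mul_zero])] at h5
  exact zero_ne_one h5

/-- **Isotriviality.** -/
theorem isotrivial (hINT : S_INT) (hMIN : S_MIN) (hGCD : S_GCD) (hCR : S_CRAMER)
    (hPOLE : S_POLE) (hCONST : S_CONST) [IsAlgClosed k] [CharZero k]
    {N M : ℕ} (hn : 1 ≤ n) (hm : 1 ≤ m) (y : Fin M → K) (hy : IsTranscendenceBasis k y)
    (a : Fin n → MvPolynomial (Fin n) K)
    (ha : ∀ j, (a j).IsHomogeneous m)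
    (hN : ∀ β : Fin n →₀ ℕ, β.degree = N → monomial β 1 ∈ Ideal.span (Set.range a))
    (hr : Ratio k m a) :
    ∃ h : Matrix (Fin n) (Fin n) (AlgebraicClosure K), h.det ≠ 0 ∧
    ∀ j, ∃ c : MvPolynomial (Fin n) k,
      (aeval (fun l => ∑ p, C (h l p) * X p) :
        MvPolynomial (Fin n) (AlgebraicClosure K) →ₐ[AlgebraicClosure K]
          MvPolynomial (Fin n) (AlgebraicClosure K))
        (map (algebraMap K (AlgebraicClosure K)) (a j)) =
        map (algebraMap k (AlgebraicClosure K)) c := by
  classical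
  have hK0 : CharZero K := charZero_of_injective_algebraMap (algebraMap k K).injective
  obtain ⟨E, hE⟩ := Pool.Agent.W636.PG.exists_duals k K M y hy
  obtain ⟨ρ, w, d, B, hw, hρ, hrel⟩ := relation_at hINT hMIN hGCD hCR hn hm a ha hN hr
  have hint : ∀ i, (aeval a : MvPolynomial (Fin n) K →ₐ[K]
      MvPolynomial (Fin n) K).toRingHom.IsIntegralElem (X i : MvPolynomial (Fin n) K) := by
    intro i
    have h1 := hINT K n m N hm a ha 1 (fun β hβ => by
      rw [C_1, one_mul]
      exact hN β hβ) i
    rw [C_1, one_mul] at h1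
    exact h1
  have hJ := jac_ne a hint
  choose b hb using fun i => exists_matrix hPOLE y hy hm ha hint hJ hw hρ hrel (E i)
  exact hCONST k K n n M E (fun c hc => const_of_kills y hy E hE c hc) a b hb

end

end Pool.Agent.Y174.SD
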