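import Pool.Agent.Y174.SD.G8
import Pool.Agent.Y174.V4

/-! Project SD: the forms with constant coefficients have no common zeros; multivalued forms. -/

set_option autoImplicit false
set_option linter.unusedSectionVars false
set_option maxHeartbeats 400000

open MvPolynomial Pool.Agent.Y174.T

namespace Pool.Agent.Y174.SD

section

/-- an additive map applied to the coefficients -/
noncomputable def cmap {σ R S : Type*} [CommRing R] [CommRing S] (π : R →+ S)
    (P : MvPolynomial σ R) : MvPolynomial σ S := ∑ e ∈ P.support, monomial e (π (coeff e P))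

theorem coeff_cmap {σ R S : Type*} [CommRing R] [CommRing S] (π : R →+ S)
    (P : MvPolynomial σ R) (e : σ →₀ ℕ) : coeff e (cmap π P) = π (coeff e P) := by
  classical
  unfold cmap
  rw [coeff_sum]
  simp only [coeff_monomial]
  rw [Finset.sum_ite_eq' P.support e]
  split_ifs with h
  · rfl
  · rw [notMem_support_iff.1 h, map_zero]

/-- descent of ideal membership -/
theorem descend {k L σ : Type*} [Field k] [Field L] [Algebra k L] {n : ℕ}
    (c : Fin n → MvPolynomial σ k) (q : MvPolynomial σ k)
    (h : map (algebraMap k L) q ∈ Ideal.span (Set.range fun j => map (algebraMap k L) (c j))) :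
    q ∈ Ideal.span (Set.range c) := by
  classical
  obtain ⟨π, hπ⟩ := LinearMap.exists_leftInverse_of_injective (Algebra.linearMap k L)
    (LinearMap.ker_eq_bot.2 (algebraMap k L).injective)
  have hπ1 : ∀ x : k, π (algebraMap k L x) = x := fun x => LinearMap.congr_fun hπ x
  rw [Ideal.mem_span_range_iff_exists_fun] at h ⊢
  obtain ⟨g, hg⟩ := h
  refine ⟨fun j => cmap (π : L →ₗ[k] k).toAddMonoidHom (g j), ?_⟩
  ext e
  have h1 := congrArg (fun p => π (coeff e p)) hg
  simp only [coeff_map, hπ1] at h1
  rw [← h1, coeff_sum, coeff_sum, map_sum]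
  refine Finset.sum_congr rfl fun j _ => ?_
  rw [coeff_mul, coeff_mul, map_sum]
  refine Finset.sum_congr rfl fun x _ => ?_
  rw [coeff_cmap, coeff_map]
  have h2 : coeff x.1 (g j) * algebraMap k L (coeff x.2 (c j)) =
      coeff x.2 (c j) • coeff x.1 (g j) := by rw [Algebra.smul_def, mul_comm]
  rw [h2, map_smul, smul_eq_mul, mul_comm]
  rfl

variable {k K : Type} [Field k] [Field K] [Algebra k K] {n m : ℕ}

theorem hom_mem {R : Type*} [CommRing R] {N : ℕ} {I : Ideal (MvPolynomial (Fin n) R)}
    (h : ∀ β : Fin n →₀ ℕ, β.degree = N → monomial β 1 ∈ I) {q : MvPolynomial (Fin n) R}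
    (hq : q.IsHomogeneous N) : q ∈ I := by
  classical
  rw [← support_sum_monomial_coeff q]
  refine Ideal.sum_mem _ fun β hβ => ?_
  have h1 : β.degree = N := by
    by_contra hne
    exact mem_support_iff.1 hβ (hq.coeff_eq_zero hne)
  have h2 : monomial β (coeff β q) = C (coeff β q) * monomial β 1 := by
    rw [C_mul_monomial, mul_one]
  rw [h2]
  exact I.mul_mem_left _ (h β h1)

/-- the forms with constant coefficients have no common zeros -/
theorem noZero_const {L : Type*} [Field L] [Algebra K L] [Algebra k L] {N : ℕ}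
    {a : Fin n → MvPolynomial (Fin n) K}
    (hN : ∀ β : Fin n →₀ ℕ, β.degree = N → monomial β 1 ∈ Ideal.span (Set.range a))
    {h : Matrix (Fin n) (Fin n) L} (hh : h.det ≠ 0) {c : Fin n → MvPolynomial (Fin n) k}
    (hc : ∀ j, (aeval (fun l => ∑ p, C (h l p) * X p) :
        MvPolynomial (Fin n) L →ₐ[L] MvPolynomial (Fin n) L)
        (map (algebraMap K L) (a j)) = map (algebraMap k L) (c j)) (β : Fin n →₀ ℕ)
    (hβ : β.degree = N) : monomial β 1 ∈ Ideal.span (Set.range c) := by
  classical
  apply descend (L := L)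
  rw [map_monomial, map_one]
  -- over `L`
  have h1 : ∀ β : Fin n →₀ ℕ, β.degree = N → (monomial β 1 : MvPolynomial (Fin n) L) ∈
      Ideal.span (Set.range fun j => map (algebraMap K L) (a j)) := by
    intro β hβ
    have h2 := Ideal.mem_map_of_mem (map (algebraMap K L)) (hN β hβ)
    rw [Ideal.map_span, ← Set.range_comp, map_monomial, map_one] at h2
    exact h2
  have hs : (aeval (fun l => ∑ p, C (h l p) * X p) :
        MvPolynomial (Fin n) L →ₐ[L] MvPolynomial (Fin n) L) = lsub h.transpose := rfl
  have h2 : lsub h.transpose (lsub (h⁻¹).transpose (monomial β (1 : L))) = monomial β 1 := by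
    rw [← lsub_comp, ← Matrix.transpose_mul, Matrix.nonsing_inv_mul _ (isUnit_iff_ne_zero.2 hh),
      Matrix.transpose_one, lsub_one]
  have h3 := hom_mem h1 (lsub_hom (h⁻¹).transpose (isHomogeneous_monomial (1 : L) hβ))
  have h4 := Ideal.mem_map_of_mem (lsub h.transpose).toRingHom h3
  rw [Ideal.map_span, ← Set.range_comp] at h4
  change lsub h.transpose (lsub (h⁻¹).transpose (monomial β (1 : L))) ∈ _ at h4
  rw [h2] at h4
  have h5 : ((lsub h.transpose).toRingHom ∘ fun j => map (algebraMap K L) (a j)) =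
      fun j => map (algebraMap k L) (c j) := by
    funext j
    rw [← hc j]
    rfl
  rw [h5] at h4
  exact h4

/-- The multivalued forms: an equation of integral dependence. -/
theorem exists_eq (hINT : S_INT) (hm : 1 ≤ m) {L : Type} [Field L] [Algebra K L] [Algebra k L]
    [IsScalarTower k K L] {N : ℕ} {a : Fin n → MvPolynomial (Fin n) K}
    (ha : ∀ j, (a j).IsHomogeneous m)
    (hN : ∀ β : Fin n →₀ ℕ, β.degree = N → monomial β 1 ∈ Ideal.span (Set.range a))
    {h : Matrix (Fin n) (Fin n) L} (hh : h.det ≠ 0) {c : Fin n → MvPolynomial (Fin n) k}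
    (hc : ∀ j, (aeval (fun l => ∑ p, C (h l p) * X p) :
        MvPolynomial (Fin n) L →ₐ[L] MvPolynomial (Fin n) L)
        (map (algebraMap K L) (a j)) = map (algebraMap k L) (c j)) (i : Fin n) :
    ∃ p : Polynomial (MvPolynomial (Fin n) k), p.Monic ∧ ∀ ξ : Fin n → K,
      Polynomial.aeval ((h⁻¹).mulVec (fun b => algebraMap K L (ξ b)) i)
        (p.map (aeval (fun j => eval ξ (a j)) : MvPolynomial (Fin n) k →ₐ[k] K).toRingHom) = 0 := by
  classical
  have hchom : ∀ j, (c j).IsHomogeneous m := by
    intro j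
    have h1 : (map (algebraMap k L) (c j)).IsHomogeneous m := by
      rw [← hc j]
      exact lsub_hom h.transpose ((ha j).map _)
    intro d hd
    refine h1 (d := d) ?_
    rw [coeff_map]
    exact (map_ne_zero_iff _ (algebraMap k L).injective).2 hd
  have hint := hINT k n m N hm c hchom 1 (fun β hβ => by
    rw [C_1, one_mul]
    exact noZero_const hN hh hc β hβ) i
  rw [C_1, one_mul] at hint
  obtain ⟨p, hp, hp0⟩ := hint
  refine ⟨p, hp, fun ξ => ?_⟩
  set ζ : Fin n → L := (h⁻¹).mulVec (fun b => algebraMap K L (ξ b)) with hζ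
  have h1 : h.mulVec ζ = fun b => algebraMap K L (ξ b) := by
    rw [hζ, Matrix.mulVec_mulVec, Matrix.mul_nonsing_inv _ (isUnit_iff_ne_zero.2 hh),
      Matrix.one_mulVec]
  have h2 : ∀ j, aeval ζ (c j) = algebraMap K L (eval ξ (a j)) := by
    intro j
    have h3 := congrArg (eval ζ) (hc j)
    rw [eval_map] at h3
    change eval ζ (aeval (fun l => ∑ p, C (h l p) * X p) (map (algebraMap K L) (a j))) =
      aeval ζ (c j) at h3
    rw [← h3, Pool.Agent.Y174.eval_aeval, eval_map]
    have h4 : (fun l => eval ζ (∑ p, C (h l p) * X p)) = fun b => algebraMap K L (ξ b) := by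
      rw [← h1]
      funext l
      rw [map_sum]
      refine Finset.sum_congr rfl fun p _ => ?_
      rw [map_mul, eval_C, eval_X]
    rw [h4]
    exact (eval₂_comp_left (algebraMap K L) (RingHom.id K) ξ (a j)).symm
  have h3 := congrArg (aeval ζ : MvPolynomial (Fin n) k →ₐ[k] L) hp0
  rw [map_zero] at h3
  have h4 := Polynomial.hom_eval₂ p (aeval c : MvPolynomial (Fin n) k →ₐ[k]
    MvPolynomial (Fin n) k).toRingHom (aeval ζ : MvPolynomial (Fin n) k →ₐ[k] L).toRingHom (X i)
  have h5 : (aeval ζ : MvPolynomial (Fin n) k →ₐ[k] L).toRingHom (X i) = ζ i := by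
    change aeval ζ (X i) = ζ i
    rw [aeval_X]
  rw [h5] at h4
  have h6 : ((aeval ζ : MvPolynomial (Fin n) k →ₐ[k] L).toRingHom.comp
      (aeval c : MvPolynomial (Fin n) k →ₐ[k] MvPolynomial (Fin n) k).toRingHom) =
      (algebraMap K L).comp
        (aeval (fun j => eval ξ (a j)) : MvPolynomial (Fin n) k →ₐ[k] K).toRingHom := by
    refine MvPolynomial.ringHom_ext (fun r => ?_) (fun j => ?_)
    · change aeval ζ (aeval c (C r)) = algebraMap K L (aeval (fun j => eval ξ (a j)) (C r))
      rw [aeval_C, aeval_C, algebraMap_eq, aeval_C, ← IsScalarTower.algebraMap_apply]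
    · change aeval ζ (aeval c (X j)) = algebraMap K L (aeval (fun j => eval ξ (a j)) (X j))
      rw [aeval_X, aeval_X, h2]
  rw [h6] at h4
  rw [Polynomial.aeval_def, Polynomial.eval₂_map, ← h4]
  exact h3

end

end Pool.Agent.Y174.SD
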