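import Pool.Agent.Y174.T1

/-! Project SD (helper174): base point free symmetric differentials. Definitions and the statements of
the independent parts (propositions `S_...`). -/

set_option autoImplicit false
set_option linter.unusedSectionVars false

open MvPolynomial Pool.Agent.Y174.T

namespace Pool.Agent.Y174.SD

/-! ## Definitions -/

/-- linear substitution `X c ↦ ∑ i, A i c * X i` -/
noncomputable def lsub {R : Type*} [CommRing R] {n : ℕ} (A : Matrix (Fin n) (Fin n) R) :
    MvPolynomial (Fin n) R →ₐ[R] MvPolynomial (Fin n) R :=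
  aeval (fun c => ∑ i, C (A i c) * X i)

/-- the form of degree `m` with the coefficients `c (j, ·)` -/
noncomputable def fm {R : Type*} [CommRing R] {n m : ℕ} (c : Fin n × Ex n m → R) (j : Fin n) :
    MvPolynomial (Fin n) R := ∑ d : Ex n m, monomial d.1 (c (j, d))

/-- the ring of the coefficients of `n` generic forms of degree `m` in `n` variables -/
abbrev Cf (k : Type*) [Field k] (n m : ℕ) : Type _ := MvPolynomial (Fin n × Ex n m) k

/-- the generic forms -/
noncomputable def gen (k : Type*) [Field k] (n m : ℕ) (j : Fin n) :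
    MvPolynomial (Fin n) (Cf k n m) := fm (fun p => (X p : Cf k n m)) j

/-- the coefficients of the forms after the substitution `A` -/
noncomputable def trans {R : Type*} [CommRing R] {n m : ℕ} (A : Matrix (Fin n) (Fin n) R)
    (c : Fin n × Ex n m → R) (p : Fin n × Ex n m) : R := coeff p.2.1 (lsub A (fm c p.1))

/-- the action of a matrix over `k` on the ring of the coefficients:
`map (act g) (gen j) = lsub g (gen j)` -/
noncomputable def act {k : Type*} [Field k] {n m : ℕ} (g : Matrix (Fin n) (Fin n) k) :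
    Cf k n m →ₐ[k] Cf k n m :=
  aeval (trans (g.map C) (fun p => (X p : Cf k n m)))

/-- semi-invariants of weight `w` -/
def SemiInv {k : Type*} [Field k] {n m : ℕ} (Q : Cf k n m) (w : ℕ) : Prop :=
  ∀ g : Matrix (Fin n) (Fin n) k, g.det ≠ 0 → act g Q = C (g.det ^ w) * Q

/-- all multiples `D * X ^ β`, `|β| = N`, are in the ideal of the generic forms -/
def Den (k : Type*) [Field k] (n m N : ℕ) (D : Cf k n m) : Prop :=
  ∀ β : Fin n →₀ ℕ, β.degree = N → C D * monomial β 1 ∈ Ideal.span (Set.range (gen k n m))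

/-! ## Statements -/

/-- J1: multiplicative polynomial functions on matrices are powers of the determinant. -/
def S_CHAR : Prop := ∀ (k : Type) [Field k] [Infinite k] (n : ℕ)
  (F : MvPolynomial (Fin n × Fin n) k),
  (∀ g h : Matrix (Fin n) (Fin n) k, g.det ≠ 0 → h.det ≠ 0 →
    eval (fun p => (g * h) p.1 p.2) F = eval (fun p => g p.1 p.2) F * eval (fun p => h p.1 p.2) F) →
  (∀ g : Matrix (Fin n) (Fin n) k, g.det ≠ 0 → eval (fun p => g p.1 p.2) F ≠ 0) →
  ∃ w : ℕ, ∀ g : Matrix (Fin n) (Fin n) k, eval (fun p => g p.1 p.2) F = g.det ^ w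

/-- J2: integrality over the ring generated by forms without common zeros. -/
def S_INT : Prop := ∀ (R : Type) [CommRing R] [IsDomain R] (n m N : ℕ) (_ : 1 ≤ m)
  (A : Fin n → MvPolynomial (Fin n) R) (_ : ∀ j, (A j).IsHomogeneous m) (D : R)
  (_ : ∀ β : Fin n →₀ ℕ, β.degree = N → C D * monomial β 1 ∈ Ideal.span (Set.range A))
  (i : Fin n),
  (aeval A : MvPolynomial (Fin n) R →ₐ[R] MvPolynomial (Fin n) R).toRingHom.IsIntegralElem
    (C D * X i)

/-- J3: a denominator which does not vanish at a given system of forms without common zeros. -/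
def S_CRAMER : Prop := ∀ (k K : Type) [Field k] [Field K] [Algebra k K] (n m N : ℕ)
  (c : Fin n × Ex n m → K)
  (_ : ∀ β : Fin n →₀ ℕ, β.degree = N → monomial β 1 ∈ Ideal.span (Set.range (fm c))),
  ∃ D : Cf k n m, Den k n m N D ∧ aeval c D ≠ 0

/-- J4: the minimal relation, with denominators which are powers of the greatest common divisor. -/
def S_MIN : Prop := ∀ (R S : Type) [CommRing R] [IsDomain R] [UniqueFactorizationMonoid R]
  [CommRing S] [IsDomain S] (n : ℕ) (φ : MvPolynomial (Fin n) R →+* S)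
  (_ : Function.Injective φ) (h : S) (r : R) (T : Set R) (_ : ∃ D ∈ T, D ≠ 0)
  (_ : ∀ D ∈ T, ∃ s : ℕ, φ.IsIntegralElem (φ (C D) ^ s * h))
  (_ : ∀ p : R, Irreducible p → (∀ D ∈ T, p ∣ D) → p ∣ r),
  ∃ (d M : ℕ) (P : Fin d → MvPolynomial (Fin n) R),
    φ (C r) ^ M * h ^ d + ∑ i, φ (P i) * h ^ (i : ℕ) = 0 ∧
    ∀ Q : Fin d → MvPolynomial (Fin n) R, ∑ i, φ (Q i) * h ^ (i : ℕ) = 0 → Q = 0

/-- J5: the semi-invariant greatest common divisor of the denominators (use `S_CHAR`). -/
def S_GCD : Prop := ∀ (k : Type) [Field k] [Infinite k] (n m N : ℕ)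
  (_ : ∃ D : Cf k n m, Den k n m N D ∧ D ≠ 0),
  ∃ (r : Cf k n m) (w : ℕ), r ≠ 0 ∧ SemiInv r w ∧ (∀ D, Den k n m N D → r ∣ D) ∧
    ∀ p : Cf k n m, Irreducible p → (∀ D, Den k n m N D → p ∣ D) → p ∣ r

/-- J6: semi-invariants over a larger field. -/
def S_DENS : Prop := ∀ (k K : Type) [Field k] [Infinite k] [Field K] [Algebra k K] (n m w : ℕ)
  (Q : Cf k n m) (_ : SemiInv Q w) (A : Matrix (Fin n) (Fin n) K) (c : Fin n × Ex n m → K),
  aeval (trans A c) Q = A.det ^ w * aeval c Q

/-- J7: a derivation which kills forms without common zeros and multiplies a nonzero common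
denominator by a constant has no poles. -/
def S_POLE : Prop := ∀ (K M : Type) [Field K] [CharZero K] [Field M] (n : ℕ)
  [Algebra (MvPolynomial (Fin n) K) M] [IsFractionRing (MvPolynomial (Fin n) K) M]
  (a : Fin n → MvPolynomial (Fin n) K)
  (_ : ∀ i, (aeval a : MvPolynomial (Fin n) K →ₐ[K] MvPolynomial (Fin n) K).toRingHom.IsIntegralElem
    (X i : MvPolynomial (Fin n) K))
  (D : Derivation ℤ M M)
  (_ : ∀ c : K, ∃ c' : K, D (algebraMap (MvPolynomial (Fin n) K) M (C c)) =
    algebraMap (MvPolynomial (Fin n) K) M (C c'))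
  (_ : ∀ j, D (algebraMap (MvPolynomial (Fin n) K) M (a j)) = 0)
  (J : MvPolynomial (Fin n) K) (_ : J ≠ 0)
  (_ : ∀ i, ∃ p, algebraMap (MvPolynomial (Fin n) K) M J *
    D (algebraMap (MvPolynomial (Fin n) K) M (X i)) = algebraMap (MvPolynomial (Fin n) K) M p)
  (_ : ∃ l : K, D (algebraMap (MvPolynomial (Fin n) K) M J) =
    algebraMap (MvPolynomial (Fin n) K) M (C l * J)),
  ∀ i, ∃ p, D (algebraMap (MvPolynomial (Fin n) K) M (X i)) =
    algebraMap (MvPolynomial (Fin n) K) M p

/-- J8: a point of a finitely generated algebra at which finitely many elements take constant values,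
if the algebra generated by them over `k` is linearly disjoint from `K`. -/
def S_POINT : Prop := ∀ (k K S : Type) [Field k] [IsAlgClosed k] [Field K] [Algebra k K]
  [CommRing S] [IsDomain S] [Algebra K S] [Algebra k S] [IsScalarTower k K S]
  (_ : Algebra.FiniteType K S) (N : ℕ) (f : Fin N → S)
  (_ : ∀ (q : ℕ) (u : Fin q → S), (∀ i, u i ∈ Algebra.adjoin k (Set.range f)) →
    LinearIndependent k u → LinearIndependent K u),
  ∃ (ψ : S →ₐ[K] AlgebraicClosure K) (b : Fin N → k),
    ∀ j, ψ (f j) = algebraMap k (AlgebraicClosure K) (b j)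

/-- J9: an isotrivial system of polynomials (use `S_POINT`). -/
def S_CONST : Prop := ∀ (k K : Type) [Field k] [IsAlgClosed k] [CharZero k] [Field K] [Algebra k K]
  (n N q : ℕ) (δ : Fin q → Derivation k K K)
  (_ : ∀ c : K, (∀ i, δ i c = 0) → ∃ b : k, algebraMap k K b = c)
  (a : Fin N → MvPolynomial (Fin n) K) (b : Fin q → Matrix (Fin n) (Fin n) K)
  (_ : ∀ i j (d : Fin n →₀ ℕ), δ i (coeff d (a j)) +
    coeff d (∑ l, pderiv l (a j) * ∑ p, C (b i l p) * X p) = 0),
  ∃ h : Matrix (Fin n) (Fin n) (AlgebraicClosure K), h.det ≠ 0 ∧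
    ∀ j, ∃ c : MvPolynomial (Fin n) k,
      (aeval (fun l => ∑ p, C (h l p) * X p) :
        MvPolynomial (Fin n) (AlgebraicClosure K) →ₐ[AlgebraicClosure K]
          MvPolynomial (Fin n) (AlgebraicClosure K))
        (map (algebraMap K (AlgebraicClosure K)) (a j)) =
        map (algebraMap k (AlgebraicClosure K)) c

/-- J10: general linear combinations of forms without common zeros. -/
def S_GP : Prop := ∀ (k K : Type) [Field k] [Infinite k] [Field K] [Algebra k K] (n N m N0 : ℕ)
  (_ : 1 ≤ m) (H : Fin N → MvPolynomial (Fin n) K) (_ : ∀ j, (H j).IsHomogeneous m)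
  (_ : ∀ β : Fin n →₀ ℕ, β.degree = N0 → monomial β 1 ∈ Ideal.span (Set.range H)),
  ∃ (z : Fin n → Fin N → k) (N1 : ℕ), ∀ β : Fin n →₀ ℕ, β.degree = N1 →
    (monomial β 1 : MvPolynomial (Fin n) K) ∈
      Ideal.span (Set.range fun i => ∑ j, C (algebraMap k K (z i j)) * H j)

end Pool.Agent.Y174.SD
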